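import Pool.Agent.Helper65.AG.E2c
import Pool.Agent.Helper74.QL.R4

/-!
# AG-E2, part 4: `loc2`, the phase in the coordinates of the second chart and the comparison with the linear family
-/

open MeasureTheory Real Set Filter Topology

set_option autoImplicit false

namespace Pool.Agent.Helper92.AG

open Pool.Agent.Helper22.AE
open Pool.Agent.Helper92.GC (dt tp Tq uu tt arc dd)
open Pool.Agent.Helper75.TW (m20 IsMul20 m20_shift m20_congr)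
open Pool.Agent.Helper60.LT (Fr Tf xf yf df vf fr sl Cv Hom)
open Pool.Agent.Helper60.QL (R3 lf ln mul20_exp)
open Pool.Agent.Helper3.AC

/-- the constant term of the phase -/
noncomputable def z0 (h : ℝ × ℝ → ℝ) (z r σ y : ℝ) (A : R3) : ℝ := TZ h z r σ y A * sl h (tA h z r σ y A) 0

/-- the linear term of the phase -/
noncomputable def z1 (h : ℝ × ℝ → ℝ) (z r σ y : ℝ) (A : R3) : ℝ :=
  TZ h z r σ y A * (xZ h z r σ y A * sl h (tA h z r σ y A) 0 + y * deriv (sl h (tA h z r σ y A)) 0)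

private theorem ee_add65 (x y : ℝ) : ee (x + y) = ee x * ee y := by
  unfold ee
  rw [← Complex.exp_add]
  congr 1
  push_cast
  ring

theorem phase_eq2 {h : ℝ × ℝ → ℝ} {z r σ y t₀ : ℝ} {A A' : R3} {k : ℤ × ℤ} (hk : 0 < uu 0 k) :
    uu 0 k * hf h (fZ h z r σ y A') (tt 0 k - t₀) =
      dt k (z0 h z r σ y A' - z0 h z r σ y A - t₀ * (z1 h z r σ y A' - z1 h z r σ y A),
        z1 h z r σ y A' - z1 h z r σ y A) +
      (uu 0 k * hf h (fZ h z r σ y A) (tt 0 k - t₀) + ln t₀ (A' - A) k) +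
      uu 0 k * (ez h z r σ y A' (tt 0 k - t₀) - ez h z r σ y A (tt 0 k - t₀)) := by
  have e0 : uu 0 k = (k.1 : ℝ) := by
    unfold uu
    ring
  have e1 : uu 0 k * (tt 0 k) = (k.2 : ℝ) := by
    unfold tt
    field_simp
  have e2 : uu 0 k * (tt 0 k - t₀) = (k.2 : ℝ) - t₀ * (k.1 : ℝ) := by
    rw [mul_sub, e1, e0]
    ring
  have r1 : (A' - A).1 = A'.1 - A.1 := rfl
  have r2 : (A' - A).2.1 = A'.2.1 - A.2.1 := rfl
  have r3 : (A' - A).2.2 = A'.2.2 - A.2.2 := rfl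
  unfold ln ez dt z0 z1
  rw [r1, r2, r3]
  simp only
  rw [← e0]
  have e3 : (k.2 : ℝ) = uu 0 k * (tt 0 k - t₀) + t₀ * uu 0 k := by
    rw [e2, e0]
    ring
  rw [e3]
  ring

/-- in a sector of half width `w` the family of forms in a box of side `δ X` is the linear family -/
theorem loc2 {c₁ B₀ B c r Y e lam : ℝ} (hc₁ : 0 < c₁) (hB₀ : 1 ≤ B₀) (hB : 1 ≤ B) (hc : 0 < c) (hr : 0 < r) (hr1 : r ≤ 1) (hY : 1 ≤ Y) (he : 0 < e)
    (heY : e * Y ^ 2 ≤ c * r / 2) (hl : 1 ≤ lam) : ∃ C w₀ : ℝ, 1 ≤ C ∧ 0 < w₀ ∧ w₀ ≤ 1 ∧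
    ∀ h : ℝ × ℝ → ℝ, HG c₁ B₀ h → ∀ z σ : ℝ, Gd c r z σ h → ∀ y ∈ Icc (1 / Y) Y, ∀ (X H w δ t₀ : ℝ) (A A' : R3) (S : Finset (ℤ × ℤ)),
    0 < X → 0 < H → 0 < w → w ≤ w₀ → A ∈ OZ B e X → A' ∈ OZ B e X → |A.1 - A'.1| ≤ δ * X → |A.2.1 - A'.2.1| ≤ δ * X → |A.2.2 - A'.2.2| ≤ δ * X →
    (∀ k ∈ S, 0 < uu 0 k ∧ uu 0 k ≤ lam * H ∧ |tt 0 k - t₀| ≤ w) → δ * X * H * w ^ 5 ≤ 1 →
    qz h z r σ y t₀ S A' ≤ C * lf t₀ S (fun k => ee (uu 0 k * hf h (fZ h z r σ y A) (tt 0 k - t₀))) (A' - A) ∧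
    lf t₀ S (fun k => ee (uu 0 k * hf h (fZ h z r σ y A) (tt 0 k - t₀))) (A' - A) ≤ C * qz h z r σ y t₀ S A' := by
  obtain ⟨C₀, w₀, hC, h0, h1, hE⟩ := ez_lip hc₁ hB₀ hB hc hr hr1 hY he heY
  refine ⟨1 + exp (16100 * (2 * C₀ * lam)) ^ 20, w₀, by linarith [pow_pos (exp_pos (16100 * (2 * C₀ * lam))) 20], h0, h1, ?_⟩
  intro h hh z σ hg y hy X H w δ t₀ A A' S hX hH hw hw0 hA hA' d1 d2 d3 hS hsm
  obtain ⟨E1, E2⟩ := hE h hh z σ hg y hy X δ A A' hX hA hA' d1 d2 d3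
  obtain ⟨g, hg1⟩ : ∃ g : ℝ → ℝ, g = ez h z r σ y A := ⟨_, rfl⟩
  obtain ⟨g', hg2⟩ : ∃ g' : ℝ → ℝ, g' = ez h z r σ y A' := ⟨_, rfl⟩
  rw [← hg1, ← hg2] at E1 E2
  have hδ : 0 ≤ δ := nonneg_of_mul_nonneg_left ((abs_nonneg _).trans d1) hX
  have hU : 0 < lam * H := by positivity
  have hmem : ∀ t ∈ Icc (t₀ - w) (t₀ + w), |t - t₀| ≤ w := by
    intro t ht
    rw [abs_le]
    constructor <;> linarith [ht.1, ht.2]
  have hS' : ∀ k ∈ S, 0 < uu 0 k ∧ uu 0 k ≤ lam * H ∧ t₀ - w ≤ tt 0 k ∧ tt 0 k ≤ t₀ + w := by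
    intro k hk
    obtain ⟨a, b, c⟩ := hS k hk
    have := abs_le.1 c
    exact ⟨a, b, by linarith, by linarith⟩
  have hbd : ∀ s : ℝ, |s| ≤ 1 → ∀ t ∈ Icc (t₀ - w) (t₀ + w),
      |s * (g' (t - t₀) - g (t - t₀))| ≤ 2 * C₀ * lam / (lam * H) := by
    intro s hs t ht
    have a1 := hmem t ht
    have a2 := E1 (t - t₀) (a1.trans hw0)
    rw [abs_sub_comm] at a2
    have a3 : |t - t₀| ^ 5 ≤ w ^ 5 := pow_le_pow_left₀ (abs_nonneg _) a1 5
    rw [abs_mul, le_div_iff₀ hU]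
    have a4 : |g' (t - t₀) - g (t - t₀)| ≤ C₀ * δ * X * w ^ 5 :=
      a2.trans (mul_le_mul_of_nonneg_left a3 (by positivity))
    have a5 : |g' (t - t₀) - g (t - t₀)| * H ≤ C₀ := by
      have b1 := mul_le_mul_of_nonneg_right a4 hH.le
      have b2 : C₀ * (δ * X * H * w ^ 5) ≤ C₀ * 1 := mul_le_mul_of_nonneg_left hsm (by linarith)
      nlinarith
    have a6 : 0 ≤ |g' (t - t₀) - g (t - t₀)| * H := by positivity
    have a7 : |s| * (|g' (t - t₀) - g (t - t₀)| * H) ≤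
        1 * (|g' (t - t₀) - g (t - t₀)| * H) := mul_le_mul_of_nonneg_right hs a6
    have hl0 : 0 ≤ lam := by linarith
    have a8 := mul_le_mul_of_nonneg_left (a7.trans (by linarith : 1 * (|g' (t - t₀) - g (t - t₀)| * H) ≤ C₀)) hl0
    nlinarith
  have hlp : ∀ s : ℝ, |s| ≤ 1 → ∀ x ∈ Icc (t₀ - w) (t₀ + w), ∀ y ∈ Icc (t₀ - w) (t₀ + w),
      |s * (g' (x - t₀) - g (x - t₀)) - s * (g' (y - t₀) - g (y - t₀))| *
        (t₀ + w - (t₀ - w)) ≤ 2 * C₀ * lam / (lam * H) * |x - y| := by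
    intro s hs x hx y hy
    have a1 := E2 (x - t₀) (y - t₀) w (hmem x hx) (hmem y hy) hw0
    have e1 : s * (g' (x - t₀) - g (x - t₀)) - s * (g' (y - t₀) - g (y - t₀)) =
        -s * (g (x - t₀) - g' (x - t₀) - (g (y - t₀) - g' (y - t₀))) := by ring
    have e2 : x - t₀ - (y - t₀) = x - y := by ring
    rw [e2] at a1
    rw [e1, abs_mul, abs_neg, show t₀ + w - (t₀ - w) = 2 * w by ring, div_mul_eq_mul_div,
      le_div_iff₀ hU]
    obtain ⟨D, hD⟩ : ∃ D, D = |g (x - t₀) - g' (x - t₀) - (g (y - t₀) - g' (y - t₀))| :=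
      ⟨_, rfl⟩
    rw [← hD] at a1 ⊢
    have hD0 : 0 ≤ D := by rw [hD]; exact abs_nonneg _
    have a2 : D * w * H ≤ C₀ * |x - y| := by
      have b1 := mul_le_mul_of_nonneg_right (mul_le_mul_of_nonneg_right a1 hw.le) hH.le
      have b2 : C₀ * |x - y| * (δ * X * H * w ^ 5) ≤ C₀ * |x - y| * 1 :=
        mul_le_mul_of_nonneg_left hsm (by positivity)
      nlinarith
    have a3 : |s| * (D * w * H) ≤ 1 * (D * w * H) := mul_le_mul_of_nonneg_right hs (by positivity)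
    have a4 := mul_le_mul_of_nonneg_left (a3.trans (by linarith : 1 * (D * w * H) ≤ C₀ * |x - y|))
      (by linarith : 0 ≤ lam)
    nlinarith
  have hm1 := mul20_exp (S := S) (β := 0) (U := lam * H) (t₁ := t₀ - w) (t₂ := t₀ + w)
    (B := 2 * C₀ * lam) hU (by linarith) hS'
    (χ := fun t => 1 * (g' (t - t₀) - g (t - t₀))) (hbd 1 (by norm_num))
    (hlp 1 (by norm_num))
  have hm2 := mul20_exp (S := S) (β := 0) (U := lam * H) (t₁ := t₀ - w) (t₂ := t₀ + w)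
    (B := 2 * C₀ * lam) hU (by linarith) hS'
    (χ := fun t => -1 * (g' (t - t₀) - g (t - t₀))) (hbd (-1) (by norm_num))
    (hlp (-1) (by norm_num))
  obtain ⟨c', hcc⟩ : ∃ c' : ℝ × ℝ, c' = (z0 h z r σ y A' - z0 h z r σ y A - t₀ * (z1 h z r σ y A' - z1 h z r σ y A),
    z1 h z r σ y A' - z1 h z r σ y A) := ⟨_, rfl⟩
  have hph : ∀ k ∈ S, uu 0 k * hf h (fZ h z r σ y A') (tt 0 k - t₀) = dt k c' +
      (uu 0 k * hf h (fZ h z r σ y A) (tt 0 k - t₀) + ln t₀ (A' - A) k) +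
      uu 0 k * (1 * (g' (tt 0 k - t₀) - g (tt 0 k - t₀))) := by
    intro k hk
    rw [phase_eq2 (A := A) (A' := A') (hS k hk).1, hcc, one_mul, hg1, hg2]
  have hph2 : ∀ k ∈ S, uu 0 k * hf h (fZ h z r σ y A) (tt 0 k - t₀) + ln t₀ (A' - A) k = dt k (-c') +
      uu 0 k * hf h (fZ h z r σ y A') (tt 0 k - t₀) +
      uu 0 k * (-1 * (g' (tt 0 k - t₀) - g (tt 0 k - t₀))) := by
    intro k hk
    rw [hph k hk]
    have : dt k (-c') = -dt k c' := by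
      unfold dt
      rw [Prod.fst_neg, Prod.snd_neg]
      ring
    rw [this]
    ring
  have nn : ∀ a : ℤ × ℤ → ℂ, 0 ≤ m20 S a := fun a => Pool.Agent.Helper75.TW.m20_nonneg S a
  constructor
  · have e1 : qz h z r σ y t₀ S A' = m20 S (fun k => ee (uu 0 k * (1 * (g' (tt 0 k - t₀) - g (tt 0 k - t₀)))) *
        (ee (uu 0 k * hf h (fZ h z r σ y A) (tt 0 k - t₀)) * ee (ln t₀ (A' - A) k))) := by
      rw [← m20_shift S _ c']
      unfold qz mf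
      refine m20_congr fun k hk => ?_
      rw [hph k hk, ee_add65, ee_add65, ee_add65]
      ring
    rw [e1]
    refine (hm1.2 _).trans ?_
    unfold lf
    have := nn (fun k => ee (uu 0 k * hf h (fZ h z r σ y A) (tt 0 k - t₀)) * ee (ln t₀ (A' - A) k))
    linarith
  · have e1 : lf t₀ S (fun k => ee (uu 0 k * hf h (fZ h z r σ y A) (tt 0 k - t₀))) (A' - A) =
        m20 S (fun k => ee (uu 0 k * (-1 * (g' (tt 0 k - t₀) - g (tt 0 k - t₀)))) *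
        (ee (uu 0 k * hf h (fZ h z r σ y A') (tt 0 k - t₀)))) := by
      rw [← m20_shift S _ (-c')]
      unfold lf
      refine m20_congr fun k hk => ?_
      rw [← ee_add65, hph2 k hk, ee_add65, ee_add65]
      ring
    rw [e1]
    refine (hm2.2 _).trans ?_
    unfold qz mf
    have := nn (fun k => ee (uu 0 k * hf h (fZ h z r σ y A') (tt 0 k - t₀)))
    linarith

end Pool.Agent.Helper92.AG
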