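import Pool.Agent.Helper95.AG.Defs
import Pool.Agent.Helper65.AF.LP

/-! # Project AG, block LP0: probability of the base level for one parameter -/

set_option autoImplicit false
open MeasureTheory Real Set Filter Topology
open scoped ENNReal

namespace Pool.Agent.Helper65.AG

open Pool.Agent.Helper18.UC (nn LL sqo rep toT)
open Pool.Agent.Helper46.QP (TT Td)
open Pool.Agent.Helper82.AN (Ik Ow lawL wt bas eta Hw sq SepR)
open Pool.Agent.Helper95.AF (st po mt pM shb tst Fa gA nv ip bad Den rr un frc DC Ho)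
open Pool.Agent.Helper95.AG
open Pool.Agent.Helper65.AF (frc_meas sq_meas sepR_add)

variable {d : ℕ}

/-- the statement of `base_exp` -/
def BaseExp (ε : ℝ) : Prop := ∃ C A₀ : ℝ, 1 ≤ C ∧ 1 ≤ A₀ ∧ ∀ (d : ℕ) (γ : ℝ) (k : ℕ)
    (e : Fin k → Td d → ℝ) (U : Fin (k + 1) → ℝ) (α : Td d)
    (r₀ a ρ δ cap y Q : ℝ) (n M N P : ℕ) (β : Fin M → Td d), 0 < γ → (∀ i, Continuous (e i)) → U 0 ≠ 0 →
    0 < r₀ → SepR α r₀ (n + 1) M β → 1 ≤ N → 1 ≤ P → 2 * ((M * (n + 1) : ℕ) : ℝ) ≤ (2 * N * r₀) ^ (2 * P) → A₀ ≤ |a| →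
    0 < ρ → ρ ≤ 1 → 0 < δ → 0 ≤ y → y ≤ cap → 0 ≤ Q →
    |a| ^ (ε - 1) ≤ |U 0| * Real.exp (-((P * N : ℝ) ^ γ)) / 20 →
    ∫⁻ w, ∏ l, (1 + ENNReal.ofReal Q *
      {b : ℕ → ℝ | rr a (n + 1) ρ δ cap b < y}.indicator 1 (sq α (frc γ e U w) (β l))) ∂lawL d ≤
      (ENNReal.ofReal (Real.exp (n + 1) * (1 + Q * (4 / (δ * ρ ^ 2)) * Real.exp (ε / 16 * y) * (C * |a|) *
        (C * |a| ^ (-(ε / 16))) ^ n))) ^ M

/-- the numbers of the base level -/
theorem num0 {ε h C L a : ℝ} {n : ℕ} (hε : 0 < ε) (hε1 : ε ≤ 1 / 2) (_hh : 0 < h) (hC : 1 ≤ C)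
    (hn : 512 ≤ ε * h * ((n + 1 : ℕ) : ℝ)) (hL : 1 ≤ L) (hL2 : 256 * (Real.log C + 1 + Real.log 4) ≤ ε * h * L)
    (ha : Real.exp L ≤ |a|) (ha1 : |a| ≤ Real.exp (L + 1)) :
    Real.exp (ε * h / 128 * ((n + 1 : ℕ) : ℝ) * L) * (4 / (Real.exp (-(2 * (ε * h / 256) * ((n + 1 : ℕ) : ℝ) * L)) *
      (Real.exp (-(ε * h / 256 * ((n + 1 : ℕ) : ℝ) * L))) ^ 2)) *
      Real.exp (ε / 16 * ((1 - h / 2) * ((n + 1 : ℕ) : ℝ) * L)) * (C * |a|) * (C * |a| ^ (-(ε / 16))) ^ n ≤ 1 := by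
  have hm1 : (1 : ℝ) ≤ ((n + 1 : ℕ) : ℝ) := by push_cast; linarith [Nat.cast_nonneg (α := ℝ) n]
  obtain ⟨m, hm⟩ : ∃ m : ℝ, m = ((n + 1 : ℕ) : ℝ) := ⟨_, rfl⟩
  have hnm : (n : ℝ) = m - 1 := by rw [hm]; push_cast; ring
  rw [← hm] at hn hm1 ⊢
  obtain ⟨F, hF⟩ : ∃ F : ℝ, F = Real.log C := ⟨_, rfl⟩
  have hF0 : 0 ≤ F := by rw [hF]; exact Real.log_nonneg hC
  have hCF : C = Real.exp F := by rw [hF, Real.exp_log (by linarith)]
  have hCa : C * |a| ≤ Real.exp (F + (L + 1)) := by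
    rw [Real.exp_add, ← hCF]
    exact mul_le_mul_of_nonneg_left ha1 (by linarith)
  have hae : |a| ^ (-(ε / 16)) ≤ Real.exp (-(ε / 16) * L) := by
    calc |a| ^ (-(ε / 16)) ≤ Real.exp L ^ (-(ε / 16)) := Real.rpow_le_rpow_of_nonpos (Real.exp_pos _) ha (by linarith)
      _ = Real.exp (-(ε / 16) * L) := by rw [← Real.exp_mul]; congr 1; ring
  have hCae : C * |a| ^ (-(ε / 16)) ≤ Real.exp (F + -(ε / 16) * L) := by
    rw [Real.exp_add, ← hCF]
    exact mul_le_mul_of_nonneg_left hae (by linarith)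
  have hpow : (C * |a| ^ (-(ε / 16))) ^ n ≤ Real.exp ((m - 1) * (F + -(ε / 16) * L)) := by
    have h0 : 0 ≤ C * |a| ^ (-(ε / 16)) := by positivity
    calc (C * |a| ^ (-(ε / 16))) ^ n ≤ (Real.exp (F + -(ε / 16) * L)) ^ n := pow_le_pow_left₀ h0 hCae n
      _ = _ := by rw [← Real.exp_nat_mul, hnm]
  have h4 : (4 : ℝ) = Real.exp (Real.log 4) := (Real.exp_log (by norm_num)).symm
  have hfrac : 4 / (Real.exp (-(2 * (ε * h / 256) * m * L)) * (Real.exp (-(ε * h / 256 * m * L))) ^ 2) =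
      Real.exp (Real.log 4 + ε * h / 64 * m * L) := by
    rw [Real.exp_add, ← h4, ← Real.exp_nat_mul, ← Real.exp_add, div_eq_mul_inv, ← Real.exp_neg]
    congr 2
    push_cast
    ring
  rw [hfrac]
  have hlog4 : 0 ≤ Real.log 4 := Real.log_nonneg (by norm_num)
  calc Real.exp (ε * h / 128 * m * L) * Real.exp (Real.log 4 + ε * h / 64 * m * L) *
        Real.exp (ε / 16 * ((1 - h / 2) * m * L)) * (C * |a|) * (C * |a| ^ (-(ε / 16))) ^ n
      ≤ Real.exp (ε * h / 128 * m * L) * Real.exp (Real.log 4 + ε * h / 64 * m * L) *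
        Real.exp (ε / 16 * ((1 - h / 2) * m * L)) * Real.exp (F + (L + 1)) * Real.exp ((m - 1) * (F + -(ε / 16) * L)) := by
        refine mul_le_mul (mul_le_mul_of_nonneg_left hCa (by positivity)) hpow (by positivity) (by positivity)
    _ = Real.exp (ε * h / 128 * m * L + (Real.log 4 + ε * h / 64 * m * L) + ε / 16 * ((1 - h / 2) * m * L) +
        (F + (L + 1)) + (m - 1) * (F + -(ε / 16) * L)) := by
        rw [← Real.exp_add, ← Real.exp_add, ← Real.exp_add, ← Real.exp_add]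
    _ ≤ 1 := by
        rw [Real.exp_le_one_iff]
        rw [← hF] at hL2
        have q1 : ε * h / 128 * m * L + (Real.log 4 + ε * h / 64 * m * L) + ε / 16 * ((1 - h / 2) * m * L) +
            (F + (L + 1)) + (m - 1) * (F + -(ε / 16) * L) =
            -(1 / 128) * (ε * h * m * L) + Real.log 4 + L + 1 + ε / 16 * L + m * F := by ring
        rw [q1]
        have q2 : 512 * L ≤ ε * h * m * L := mul_le_mul_of_nonneg_right hn (by linarith)
        have q3 : m * (256 * (F + 1 + Real.log 4)) ≤ m * (ε * h * L) := mul_le_mul_of_nonneg_left hL2 (by linarith)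
        have q4 : Real.log 4 + 1 ≤ m * (Real.log 4 + 1) := le_mul_of_one_le_left (by linarith) hm1
        have q5 : ε / 16 * L ≤ 1 * L := mul_le_mul_of_nonneg_right (by linarith) (by linarith)
        linarith

theorem lev_prob0_of {ε h : ℝ} (hbase : BaseExp ε) (hε : 0 < ε) (hε1 : ε ≤ 1 / 2) (hh : 0 < h) (hh1 : h ≤ 1 / 200)
    {γ τ x : ℝ} (hd : 0 < d) (hγ : 0 < γ) (h1 : 1 / d ≤ τ) (h2 : τ * γ < x) (_hx : x < 1) (G : ℝ) (hG : 1 ≤ G) :
    ∃ K : ℝ, ∀ n : ℕ, K ≤ n → ∀ D : ℝ, 0 < D → ∃ L₀ : ℝ, 1 ≤ L₀ ∧ ∀ L : ℝ, L₀ ≤ L →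
      ∀ (k : ℕ) (e : Fin k → Td d → ℝ) (U : Fin (k + 1) → ℝ) (a : ℝ) (α : Td d) (y : ℝ), (∀ i, Continuous (e i)) →
        Real.exp L ≤ |a| → |a| ≤ Real.exp (L + 1) → |a| ^ (2 * ε - 1) ≤ |U 0| → DC D τ α → -(et h 0 / 2 * n * L) ≤ y →
        lawL d {w | et h 0 ≤ volume.real {θ : Td d | sq α (frc γ e U w) θ ∈ Ev0 h (ε * h / 256) a L n y}} ≤
          ENNReal.ofReal (Real.exp (-(G * n * L))) := by
  obtain ⟨C, A₀, hC, hA₀, Hb⟩ := hbase
  have hεh : 0 < ε * h := mul_pos hε hh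
  have hεh2 : 0 < ε * h ^ 2 := by positivity
  refine ⟨512 / (ε * h), fun n' hn' D hD => ?_⟩
  have hn1 : 1 ≤ n' := by
    have : 0 < (n' : ℝ) := lt_of_lt_of_le (by positivity) hn'
    have : 0 < n' := by exact_mod_cast this
    omega
  obtain ⟨n, rfl⟩ : ∃ n : ℕ, n' = n + 1 := ⟨n' - 1, by omega⟩
  have hn : 512 ≤ ε * h * ((n + 1 : ℕ) : ℝ) := by
    rw [div_le_iff₀ hεh] at hn'
    linarith
  obtain ⟨C₁, hC₁, Ha⟩ := Pool.Agent.Helper10.AF.amp_ok hd hγ h1 h2 D hD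
  obtain ⟨M, hM⟩ : ∃ M : ℕ, M = ⌈300 * G / (ε * h ^ 2)⌉₊ := ⟨_, rfl⟩
  have hMG0 : 300 * G / (ε * h ^ 2) ≤ M := by rw [hM]; exact Nat.le_ceil _
  have hMG : 300 * G ≤ M * (ε * h ^ 2) := by rwa [div_le_iff₀ hεh2] at hMG0
  have hM1 : 1 ≤ M := by
    have h0 : 0 < 300 * G / (ε * h ^ 2) := by positivity
    have : 0 < (M : ℝ) := lt_of_lt_of_le h0 hMG0
    have : 0 < M := by exact_mod_cast this
    omega
  obtain ⟨E, hE⟩ : ∃ E : ℝ, E = C₁ * ((M * (n + 1) : ℕ) : ℝ) ^ x := ⟨_, rfl⟩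
  have hE0 : 0 ≤ E := by rw [hE]; positivity
  refine ⟨max (max 1 A₀) (max (256 * (Real.log C + 1 + Real.log 4) / (ε * h)) (max ((E + Real.log 20) / ε) (512 / (ε * h ^ 2)))),
    (le_max_left _ _).trans (le_max_left _ _), ?_⟩
  intro L hL k e U a α y he ha ha1 hU hα hy
  have hL1 : 1 ≤ L := ((le_max_left _ _).trans (le_max_left _ _)).trans hL
  have hLA : A₀ ≤ L := ((le_max_right _ _).trans (le_max_left _ _)).trans hL
  have hLC : 256 * (Real.log C + 1 + Real.log 4) ≤ ε * h * L := by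
    have := ((le_max_left _ _).trans (le_max_right _ _)).trans hL
    rw [div_le_iff₀ hεh] at this
    linarith
  have hLE : E + Real.log 20 ≤ ε * L := by
    have := (((le_max_left _ _).trans (le_max_right _ _)).trans (le_max_right _ _)).trans hL
    rw [div_le_iff₀ hε] at this
    linarith
  have hLh : 512 ≤ ε * h ^ 2 * L := by
    have := (((le_max_right _ _).trans (le_max_right _ _)).trans (le_max_right _ _)).trans hL
    rw [div_le_iff₀ hεh2] at this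
    linarith
  obtain ⟨r₀, N, P, β, hr₀, hsep, hN, hP, hint, hPN⟩ := Ha (n + 1) M α (by omega) hM1 hα
  rw [← hE] at hPN
  have hm1 : (1 : ℝ) ≤ ((n + 1 : ℕ) : ℝ) := by push_cast; linarith [Nat.cast_nonneg (α := ℝ) n]
  have hn1' : ((n + 1 : ℕ) : ℝ) = (n : ℝ) + 1 := by push_cast; ring
  obtain ⟨m, hm⟩ : ∃ m : ℝ, m = ((n + 1 : ℕ) : ℝ) := ⟨_, rfl⟩
  rw [← hm] at hm1
  have hmL : 0 < m * L := by positivity
  have hεhmL : 0 < ε * h * (m * L) := by positivity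
  obtain ⟨ρ, hρ⟩ : ∃ ρ : ℝ, ρ = Real.exp (-(ε * h / 256 * m * L)) := ⟨_, rfl⟩
  obtain ⟨δ, hδ⟩ : ∃ δ : ℝ, δ = Real.exp (-(2 * (ε * h / 256) * m * L)) := ⟨_, rfl⟩
  obtain ⟨Y, hY⟩ : ∃ Y : ℝ, Y = (1 - h / 2) * m * L := ⟨_, rfl⟩
  obtain ⟨Q, hQ⟩ : ∃ Q : ℝ, Q = Real.exp (ε * h / 128 * m * L) := ⟨_, rfl⟩
  have hρ0 : 0 < ρ := by rw [hρ]; exact Real.exp_pos _
  have hρ1 : ρ ≤ 1 := by
    rw [hρ, Real.exp_le_one_iff]
    linarith
  have hδ0 : 0 < δ := by rw [hδ]; exact Real.exp_pos _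
  have hhmL : h * (m * L) ≤ 1 / 200 * (m * L) := mul_le_mul_of_nonneg_right hh1 hmL.le
  have hhmL0 : 0 ≤ h * (m * L) := by positivity
  have hY0 : 0 ≤ Y := by rw [hY]; linarith
  have hYc : Y ≤ 2 * m * L := by rw [hY]; linarith
  have h2mL : 0 ≤ 2 * m * L := hY0.trans hYc
  have hQ1 : 1 ≤ Q := by
    rw [hQ]
    exact Real.one_le_exp (by positivity)
  have haL : L + 1 ≤ |a| := (Real.add_one_le_exp L).trans ha
  have ha0 : 0 < |a| := by linarith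
  have hsU : |a| ^ (ε - 1) ≤ |U 0| * Real.exp (-((P * N : ℝ) ^ γ)) / 20 := by
    have q1 : |a| ^ (2 * ε - 1) = |a| ^ ε * |a| ^ (ε - 1) := by
      rw [← Real.rpow_add ha0]
      congr 1
      ring
    have q2 : Real.exp (ε * L) ≤ |a| ^ ε := by
      calc Real.exp (ε * L) = Real.exp L ^ ε := by rw [← Real.exp_mul]; congr 1; ring
        _ ≤ |a| ^ ε := Real.rpow_le_rpow (Real.exp_pos _).le ha hε.le
    have q3 : Real.exp (-E) ≤ Real.exp (-((P * N : ℝ) ^ γ)) := Real.exp_le_exp.2 (by linarith)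
    have q4 : 20 ≤ Real.exp (ε * L) * Real.exp (-E) := by
      rw [← Real.exp_add]
      calc (20 : ℝ) = Real.exp (Real.log 20) := (Real.exp_log (by norm_num)).symm
        _ ≤ _ := Real.exp_le_exp.2 (by linarith)
    have q5 : 20 ≤ |a| ^ ε * Real.exp (-((P * N : ℝ) ^ γ)) :=
      q4.trans (mul_le_mul q2 q3 (Real.exp_pos _).le (by positivity))
    have q6 : 0 < |a| ^ (ε - 1) := Real.rpow_pos_of_pos ha0 _
    have q7 : |a| ^ (ε - 1) * 20 ≤ |a| ^ (ε - 1) * (|a| ^ ε * Real.exp (-((P * N : ℝ) ^ γ))) :=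
      mul_le_mul_of_nonneg_left q5 q6.le
    have q8 : |a| ^ (2 * ε - 1) * Real.exp (-((P * N : ℝ) ^ γ)) ≤ |U 0| * Real.exp (-((P * N : ℝ) ^ γ)) :=
      mul_le_mul_of_nonneg_right hU (Real.exp_pos _).le
    rw [q1] at q8
    have q9 : |a| ^ (ε - 1) * (|a| ^ ε * Real.exp (-((P * N : ℝ) ^ γ))) =
      |a| ^ ε * |a| ^ (ε - 1) * Real.exp (-((P * N : ℝ) ^ γ)) := by ring
    rw [q9] at q7
    rw [le_div_iff₀ (by norm_num)]
    exact q7.trans q8
  have hU0 : U 0 ≠ 0 := by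
    intro h0
    rw [h0, abs_zero] at hU
    exact absurd hU (not_le.2 (Real.rpow_pos_of_pos ha0 _))
  -- the exceptional set
  obtain ⟨Dd, hDd⟩ : ∃ Dd : Set (Ow d × Td d), Dd = {p | rr a (n + 1) ρ δ (2 * m * L) (sq α (frc γ e U p.1) p.2) < Y} := ⟨_, rfl⟩
  have hDm : MeasurableSet Dd := by
    rw [hDd]
    exact measurableSet_lt ((Pool.Agent.Helper4.AF.rr_meas a (n + 1) h2mL hδ0.le).comp (sq_meas γ he U α)) measurable_const
  have hexp : ∀ θ : Td d, ∫⁻ w, ∏ l, (1 + ENNReal.ofReal Q * {w : Ow d | (w, θ + β l) ∈ Dd}.indicator 1 w) ∂lawL d ≤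
      ENNReal.ofReal (Real.exp (M * (m + 1))) := by
    intro θ
    have q1 := Hb d γ k e U α r₀ a ρ δ (2 * m * L) Y Q n M N P (fun l => θ + β l) hγ he hU0 hr₀ (sepR_add hsep θ) hN hP hint
      (by linarith) hρ0 hρ1 hδ0 hY0 hYc (by linarith) hsU
    have q2 : ∀ w : Ow d, ∏ l, (1 + ENNReal.ofReal Q * {w : Ow d | (w, θ + β l) ∈ Dd}.indicator 1 w) =
        ∏ l, (1 + ENNReal.ofReal Q * {b : ℕ → ℝ | rr a (n + 1) ρ δ (2 * m * L) b < Y}.indicator 1 (sq α (frc γ e U w) (θ + β l))) := by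
      intro w
      refine Finset.prod_congr rfl fun l _ => ?_
      congr 2
      rw [hDd]
      simp only [Set.indicator, Set.mem_ofPred_eq, Pi.one_apply]
    simp_rw [q2]
    refine q1.trans ?_
    have q3 := num0 (a := a) hε hε1 hh hC hn hL1 hLC ha ha1
    rw [← hm, ← hρ, ← hδ, ← hY, ← hQ] at q3
    have q4 : Real.exp (n + 1) * (1 + Q * (4 / (δ * ρ ^ 2)) * Real.exp (ε / 16 * Y) * (C * |a|) *
        (C * |a| ^ (-(ε / 16))) ^ n) ≤ Real.exp (m + 1) := by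
      have q5 : Real.exp (m + 1) = Real.exp (n + 1) * Real.exp 1 := by
        rw [← Real.exp_add, hm, hn1']
      rw [q5]
      refine mul_le_mul_of_nonneg_left ?_ (Real.exp_pos _).le
      have := Real.exp_one_gt_d9
      linarith
    calc _ ≤ (ENNReal.ofReal (Real.exp (m + 1))) ^ M := pow_le_pow_left' (ENNReal.ofReal_le_ofReal q4) M
      _ = ENNReal.ofReal (Real.exp (M * (m + 1))) := by
        rw [← ENNReal.ofReal_pow (Real.exp_pos _).le, ← Real.exp_nat_mul]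
  have hfin := Pool.Agent.Helper33.AF.conc hDm hQ1 hexp (et h 0)
  have q3 : et h 0 = h := by unfold et; norm_num
  have hsub : {w | et h 0 ≤ volume.real {θ : Td d | sq α (frc γ e U w) θ ∈ Ev0 h (ε * h / 256) a L (n + 1) y}} ⊆
      {w | et h 0 ≤ volume.real {θ | (w, θ) ∈ Dd}} := by
    intro w hw
    refine le_trans hw (measureReal_mono ?_ (measure_ne_top _ _))
    intro θ hθ
    rw [hDd]
    show rr a (n + 1) ρ δ (2 * m * L) (sq α (frc γ e U w) θ) < Y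
    have q1 : Rl h (ε * h / 256) a L 0 (n + 1) (sq α (frc γ e U w) θ) < (1 - et h 0) * (n + 1 : ℕ) * L - y := hθ
    unfold Rl at q1
    have q2 : pp h (ε * h / 256) 0 = ε * h / 256 := rfl
    rw [q2, q3, ← hm] at q1
    rw [q3, ← hm] at hy
    rw [← hρ, ← hδ] at q1
    refine q1.trans_le ?_
    rw [hY]
    linarith
  refine (measure_mono hsub).trans (hfin.trans ?_)
  rw [← ENNReal.ofReal_mul (Real.exp_pos _).le, ← Real.exp_add]
  refine ENNReal.ofReal_le_ofReal (Real.exp_le_exp.2 ?_)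
  rw [q3, hQ, Real.log_exp, ← hm]
  have q5 : (M : ℝ) * m * 512 ≤ M * m * (ε * h ^ 2 * L) := mul_le_mul_of_nonneg_left hLh (by positivity)
  have q6 : 300 * G * (m * L) ≤ M * (ε * h ^ 2) * (m * L) := mul_le_mul_of_nonneg_right hMG hmL.le
  have q7 : 0 ≤ G * (m * L) := by positivity
  have q8 : (M : ℝ) ≤ M * m := le_mul_of_one_le_right (by positivity) hm1
  have q9 : (M : ℝ) * (m + 1) + -(M * h * (ε * h / 128 * m * L)) = M * m + M - 1 / 128 * (M * (ε * h ^ 2) * (m * L)) := by ring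
  rw [q9, mul_assoc G]
  have q10 : (M : ℝ) * m * (ε * h ^ 2 * L) = M * (ε * h ^ 2) * (m * L) := by ring
  rw [q10] at q5
  linarith

end Pool.Agent.Helper65.AG
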