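import Pool.Agent.Helper92.AG.Defs

/-!
# AG-E2, part 1: the inverse function of `κ` near one of its zeros (`th_lip`)
-/

open MeasureTheory Real Set Filter Topology

set_option autoImplicit false

namespace Pool.Agent.Helper92.AG

open Pool.Agent.Helper3.AC

section

variable {c₁ B₀ c r z σ : ℝ} {h : ℝ × ℝ → ℝ}

/-- the slope of `σ κ` on `[z - r, z + r]` is at least `c` -/
theorem th_slope (hh : HG c₁ B₀ h) (hg : Gd c r z σ h) {a b : ℝ} (ha : |a - z| ≤ r)
    (hb : |b - z| ≤ r) (hab : a ≤ b) : c * (b - a) ≤ σ * ka h b - σ * ka h a := by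
  obtain ⟨-, -, -, hd⟩ := hg
  have h1 : ∀ t, HasDerivAt (fun t => σ * ka h t) (σ * deriv (ka h) t) t := fun t =>
    ((hh.kd t).hasDerivAt).const_mul σ
  have h2 : ∀ t, t ∈ Icc (z - r) (z + r) → |t - z| ≤ r := by
    intro t ht
    rw [abs_le]
    constructor <;> linarith [ht.1, ht.2]
  have h3 : ∀ t, |t - z| ≤ r → t ∈ Icc (z - r) (z + r) := by
    intro t ht
    have := abs_le.1 ht
    exact ⟨by linarith, by linarith⟩
  refine (convex_Icc (z - r) (z + r)).mul_sub_le_image_sub_of_le_deriv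
    (f := fun t => σ * ka h t) (fun t _ => (h1 t).continuousAt.continuousWithinAt)
    (fun t _ => (h1 t).differentiableAt.differentiableWithinAt) (fun t ht => ?_) a (h3 a ha) b
    (h3 b hb) hab
  rw [(h1 t).deriv]
  exact hd t (h2 t (interior_subset ht))

/-- a point of `[z - r, z + r]` is the value of the inverse function -/
theorem th_eq (hc : 0 < c) (hh : HG c₁ B₀ h) (hg : Gd c r z σ h) {θ v : ℝ}
    (hθ : |θ - z| ≤ r) (hv : ka h θ = v) : th h z r σ v = θ := by
  have h1 := abs_le.1 hθ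
  have hl : IsLeast {t | (z - r ≤ t ∧ t ≤ z + r ∧ σ * v ≤ σ * ka h t) ∨ t = z + r} θ := by
    refine ⟨Or.inl ⟨by linarith, by linarith, by rw [hv]⟩, ?_⟩
    rintro t (⟨t1, t2, t3⟩ | rfl)
    · by_contra hn
      have hn := not_le.1 hn
      have h2 := th_slope hh hg (a := t) (b := θ) (abs_le.2 ⟨by linarith, by linarith⟩) hθ hn.le
      rw [hv] at h2
      have h3 : 0 < c * (θ - t) := mul_pos hc (by linarith)
      linarith
    · linarith
  exact hl.csInf_eq

theorem th_lip (hc : 0 < c) (hr : 0 < r) (hh : HG c₁ B₀ h) (hg : Gd c r z σ h) :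
    (∀ v, |v| ≤ c * r / 2 → |th h z r σ v - z| ≤ r ∧ ka h (th h z r σ v) = v) ∧
    (∀ θ, |θ - z| ≤ r → th h z r σ (ka h θ) = θ) ∧
    ∀ v v', |v| ≤ c * r / 2 → |v'| ≤ c * r / 2 → |th h z r σ v - th h z r σ v'| ≤ |v - v'| / c := by
  have hσ : σ * σ = 1 := by
    rcases hg.1 with e | e <;> rw [e] <;> norm_num
  have hσ1 : |σ| = 1 := by
    rcases hg.1 with e | e <;> rw [e] <;> norm_num
  have z0 : |z - z| ≤ r := by simp [hr.le]
  have zm : |z - r - z| ≤ r := by rw [show z - r - z = -r by ring, abs_neg, abs_of_pos hr]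
  have zp : |z + r - z| ≤ r := by rw [show z + r - z = r by ring, abs_of_pos hr]
  have A1 : ∀ v, |v| ≤ c * r / 2 → |th h z r σ v - z| ≤ r ∧ ka h (th h z r σ v) = v := by
    intro v hv
    have s1 := th_slope hh hg zm z0 (by linarith)
    have s2 := th_slope hh hg z0 zp (by linarith)
    have kz : |σ * ka h z| ≤ c * r / 2 := by
      rw [abs_mul, hσ1, one_mul]
      exact hg.2.2.1
    have kv : |σ * v| ≤ c * r / 2 := by
      rw [abs_mul, hσ1, one_mul]
      exact hv
    have k1 := abs_le.1 kz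
    have k2 := abs_le.1 kv
    have cont : ContinuousOn (fun t => σ * ka h t) (Icc (z - r) (z + r)) :=
      (continuous_const.mul hh.kd.continuous).continuousOn
    have mem : σ * v ∈ Icc ((fun t => σ * ka h t) (z - r)) ((fun t => σ * ka h t) (z + r)) := by
      constructor
      · change σ * ka h (z - r) ≤ σ * v
        nlinarith
      · change σ * v ≤ σ * ka h (z + r)
        nlinarith
    obtain ⟨θ, hθ, hθv⟩ := intermediate_value_Icc (by linarith : z - r ≤ z + r) cont mem
    have hθ1 : |θ - z| ≤ r := abs_le.2 ⟨by linarith [hθ.1], by linarith [hθ.2]⟩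
    have hθ2 : ka h θ = v := by
      have e : σ * (σ * ka h θ) = σ * (σ * v) := by
        have : σ * ka h θ = σ * v := hθv
        rw [this]
      rw [← mul_assoc, ← mul_assoc, hσ, one_mul, one_mul] at e
      exact e
    rw [th_eq hc hh hg hθ1 hθ2]
    exact ⟨hθ1, hθ2⟩
  refine ⟨A1, fun θ hθ => th_eq hc hh hg hθ rfl, ?_⟩
  intro v v' hv hv'
  obtain ⟨a1, a2⟩ := A1 v hv
  obtain ⟨b1, b2⟩ := A1 v' hv'
  rw [le_div_iff₀ hc]
  rcases le_total (th h z r σ v) (th h z r σ v') with hle | hle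
  · have s := th_slope hh hg a1 b1 hle
    rw [a2, b2] at s
    have e : |σ * v' - σ * v| = |v - v'| := by
      rw [← mul_sub, abs_mul, hσ1, one_mul, abs_sub_comm]
    have t := le_abs_self (σ * v' - σ * v)
    rw [e] at t
    rw [abs_sub_comm, abs_of_nonneg (by linarith)]
    linarith
  · have s := th_slope hh hg b1 a1 hle
    rw [a2, b2] at s
    have e : |σ * v - σ * v'| = |v - v'| := by
      rw [← mul_sub, abs_mul, hσ1, one_mul]
    have t := le_abs_self (σ * v - σ * v')
    rw [e] at t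
    rw [abs_of_nonneg (by linarith)]
    linarith

end

end Pool.Agent.Helper92.AG
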