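import Pool.Agent.Helper65.AG.E2a
import Pool.Agent.Helper36.AC.ErLip

/-!
# AG-E2, part 2: families of functions of the coordinates in the second chart
-/

open Real Set

set_option autoImplicit false

namespace Pool.Agent.Helper92.AG

open Pool.Agent.Helper60.LT (Fr Tf xf yf df vf fr sl Cv Hom)
open Pool.Agent.Helper60.QL (R3)
open Pool.Agent.Helper3.AC

/-- families of functions on the set `M` of coordinates, with parameters `P ∈ S` -/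
def UZ {ι : Type} (S : Set ι) (M : Set R3) (w : ℝ) (F : ι → R3 → ℝ → ℝ) : Prop :=
  ∃ K : ℝ, 1 ≤ K ∧ ∀ P ∈ S, ∀ (δ : ℝ) (A A' : R3), 0 ≤ δ → A ∈ M → A' ∈ M → |A.1 - A'.1| ≤ δ →
    |A.2.1 - A'.2.1| ≤ δ → |A.2.2 - A'.2.2| ≤ δ → Pool.Agent.Helper60.QL.Gd w δ K (F P A) (F P A')

section

variable {ι : Type} {S : Set ι} {M : Set R3} {w c : ℝ} {F G : ι → R3 → ℝ → ℝ}

theorem UZ.congr (h : UZ S M w F) (e : ∀ P A τ, F P A τ = G P A τ) : UZ S M w G := by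
  have : F = G := funext fun P => funext fun A => funext fun τ => e P A τ
  rwa [this] at h

theorem UZ.add (h : UZ S M w F) (k : UZ S M w G) : UZ S M w (fun P A τ => F P A τ + G P A τ) := by
  obtain ⟨K, hK, h⟩ := h
  obtain ⟨L, hL, k⟩ := k
  exact ⟨K + L, by linarith, fun P hP δ A A' h0 h1 h2 h3 h4 h5 =>
    (h P hP δ A A' h0 h1 h2 h3 h4 h5).add (k P hP δ A A' h0 h1 h2 h3 h4 h5)⟩

theorem UZ.mul (h : UZ S M w F) (k : UZ S M w G) : UZ S M w (fun P A τ => F P A τ * G P A τ) := by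
  obtain ⟨K, hK, h⟩ := h
  obtain ⟨L, hL, k⟩ := k
  exact ⟨4 * K * L, by nlinarith, fun P hP δ A A' h0 h1 h2 h3 h4 h5 =>
    (h P hP δ A A' h0 h1 h2 h3 h4 h5).mul (k P hP δ A A' h0 h1 h2 h3 h4 h5) h0 (by linarith) (by linarith)⟩

theorem UZ.inv (h : UZ S M w F) (hc : 0 < c) (hF : ∀ P ∈ S, ∀ A ∈ M, ∀ τ, |τ| ≤ w → c ≤ F P A τ) :
    UZ S M w (fun P A τ => (F P A τ)⁻¹) := by
  obtain ⟨K, hK, h⟩ := h
  refine ⟨1 + (1 / c + K / c ^ 2 + 2 * K ^ 3 / c ^ 4), ?_, fun P hP δ A A' h0 h1 h2 h3 h4 h5 =>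
    ((h P hP δ A A' h0 h1 h2 h3 h4 h5).inv h0 (by linarith) hc (hF P hP A h1) (hF P hP A' h2)).weaken h0
      (by linarith)⟩
  have p1 : 0 ≤ 1 / c := by positivity
  have p2 : 0 ≤ K / c ^ 2 := by positivity
  have p3 : 0 ≤ 2 * K ^ 3 / c ^ 4 := by positivity
  linarith

/-- a bounded Lipschitz function of the coordinates -/
theorem UZ.frm (φ : ι → R3 → ℝ) (K : ℝ) (hb : ∀ P ∈ S, ∀ A ∈ M, |φ P A| ≤ K)
    (hl : ∀ P ∈ S, ∀ (δ : ℝ) (A A' : R3), 0 ≤ δ → A ∈ M → A' ∈ M → |A.1 - A'.1| ≤ δ →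
      |A.2.1 - A'.2.1| ≤ δ → |A.2.2 - A'.2.2| ≤ δ → |φ P A - φ P A'| ≤ K * δ) :
    UZ S M w (fun P A _ => φ P A) := by
  refine ⟨1 + |K|, by linarith [abs_nonneg K], fun P hP δ A A' h0 h1 h2 h3 h4 h5 => ?_⟩
  have hK := le_abs_self K
  have hK0 := abs_nonneg K
  refine ⟨fun _ _ => by linarith [hb P hP A h1], fun _ _ => by linarith [hb P hP A' h2],
    fun τ τ' _ _ => ?_, fun τ τ' _ _ => ?_, fun _ _ => ?_, fun τ τ' _ _ => ?_⟩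
  · rw [sub_self, abs_zero]; positivity
  · rw [sub_self, abs_zero]; positivity
  · refine (hl P hP δ A A' h0 h1 h2 h3 h4 h5).trans (mul_le_mul_of_nonneg_right (by linarith) h0)
  · rw [sub_self, abs_zero]; positivity

/-- a bounded function of the parameters -/
theorem UZ.prm (φ : ι → ℝ) (r : ℝ) (hr : ∀ P ∈ S, |φ P| ≤ r) : UZ S M w (fun P _ _ => φ P) :=
  UZ.frm (fun P _ => φ P) |r| (fun P hP _ _ => (hr P hP).trans (le_abs_self r))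
    fun P _ δ A A' h0 _ _ _ _ _ => by rw [sub_self, abs_zero]; positivity

theorem UZ.cst (r : ℝ) : UZ S M w (fun _ _ _ => r) := UZ.prm (fun _ => r) |r| fun _ _ => le_rfl

theorem UZ.idn (hw : 0 ≤ w) : UZ S M w (fun _ _ τ => τ) := by
  refine ⟨1 + w, by linarith, fun P hP δ A A' h0 h1 h2 h3 h4 h5 => ?_⟩
  refine ⟨fun _ h => by linarith, fun _ h => by linarith, fun τ τ' _ _ => ?_, fun τ τ' _ _ => ?_,
    fun _ _ => ?_, fun τ τ' _ _ => ?_⟩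
  · nlinarith [abs_nonneg (τ - τ')]
  · nlinarith [abs_nonneg (τ - τ')]
  · rw [sub_self, abs_zero]; positivity
  · rw [sub_self, sub_self, sub_zero, abs_zero]; positivity

/-- the bound and the Lipschitz constant of a family which does not depend on `τ` -/
theorem UZ.ext {φ : ι → R3 → ℝ} (h : UZ S M 0 (fun P A _ => φ P A)) : ∃ K : ℝ, 1 ≤ K ∧
    (∀ P ∈ S, ∀ A ∈ M, |φ P A| ≤ K) ∧
    ∀ P ∈ S, ∀ (δ : ℝ) (A A' : R3), 0 ≤ δ → A ∈ M → A' ∈ M → |A.1 - A'.1| ≤ δ →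
      |A.2.1 - A'.2.1| ≤ δ → |A.2.2 - A'.2.2| ≤ δ → |φ P A - φ P A'| ≤ K * δ := by
  obtain ⟨K, hK, h⟩ := h
  have z : |(0 : ℝ)| ≤ 0 := by simp
  refine ⟨K, hK, fun P hP A hA => ?_, fun P hP δ A A' h0 h1 h2 h3 h4 h5 => ?_⟩
  · exact (h P hP 0 A A le_rfl hA hA (by simp) (by simp) (by simp)).bf 0 z
  · exact (h P hP δ A A' h0 h1 h2 h3 h4 h5).d 0 z

/-- a family which does not depend on `τ` -/
theorem UZ.lift {φ : ι → R3 → ℝ} (h : UZ S M 0 (fun P A _ => φ P A)) : UZ S M w (fun P A _ => φ P A) := by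
  obtain ⟨K, -, h1, h2⟩ := h.ext
  exact UZ.frm φ K h1 h2

end

/-- the parameters `(h, z, σ, y)` of the second chart -/
abbrev PZ : Type := (ℝ × ℝ → ℝ) × ℝ × ℝ × ℝ

/-- the set of parameters -/
def SZ (c₁ B₀ c r Y : ℝ) : Set PZ :=
  {P | HG c₁ B₀ P.1 ∧ Gd c r P.2.1 P.2.2.1 P.1 ∧ P.2.2.2 ∈ Icc (1 / Y) Y}

section

variable {c₁ B₀ B c r Y e w X : ℝ} {A : R3}

theorem OZ_pos (hB : 1 ≤ B) (hX : 0 < X) (h : A ∈ OZ B e X) : 0 < A.1 := by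
  obtain ⟨a1, -⟩ := h
  by_contra hc
  have := not_lt.1 hc
  nlinarith

theorem uz_1 (hB : 1 ≤ B) : UZ (SZ c₁ B₀ c r Y) (OZ B e 1) w (fun _ A _ => A.1) := by
  refine UZ.frm (fun _ A => A.1) B (fun P _ A hA => ?_) fun P _ δ A A' h0 _ _ h3 _ _ => ?_
  · have := OZ_pos hB one_pos hA
    rw [abs_of_pos this]
    linarith [hA.2.1]
  · exact h3.trans (le_mul_of_one_le_left h0 hB)

theorem uz_2 (hB : 1 ≤ B) : UZ (SZ c₁ B₀ c r Y) (OZ B e 1) w (fun _ A _ => A.2.1) := by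
  refine UZ.frm (fun _ A => A.2.1) B (fun P _ A hA => ?_) fun P _ δ A A' h0 _ _ _ h4 _ => ?_
  · linarith [hA.2.2.1]
  · exact h4.trans (le_mul_of_one_le_left h0 hB)

theorem uz_3 (hB : 1 ≤ B) : UZ (SZ c₁ B₀ c r Y) (OZ B e 1) w (fun _ A _ => A.2.2) := by
  refine UZ.frm (fun _ A => A.2.2) B (fun P _ A hA => ?_) fun P _ δ A A' h0 _ _ _ _ h5 => ?_
  · linarith [hA.2.2.2.1]
  · exact h5.trans (le_mul_of_one_le_left h0 hB)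

theorem uz_y (hY : 1 ≤ Y) : UZ (SZ c₁ B₀ c r Y) (OZ B e 1) w (fun P _ _ => P.2.2.2) := by
  refine UZ.prm (fun P : PZ => P.2.2.2) Y fun P hP => ?_
  obtain ⟨-, -, h1, h2⟩ := hP
  have : 0 < 1 / Y := by positivity
  rw [abs_of_pos (by linarith)]
  exact h2

theorem y_lo (hY : 1 ≤ Y) {y : ℝ} (hy : y ∈ Icc (1 / Y) Y) : 0 < y ∧ 1 / Y * (1 / Y) ≤ y * y := by
  have h0 : 0 < 1 / Y := by positivity
  exact ⟨h0.trans_le hy.1, mul_le_mul hy.1 hy.1 h0.le (h0.le.trans hy.1)⟩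

theorem A1_lo (hB : 1 ≤ B) (hA : A ∈ OZ B e 1) : 1 / B ≤ A.1 := by
  have := hA.1
  rw [div_le_iff₀ (by linarith)]
  linarith

theorem uz_v (hB : 1 ≤ B) (hY : 1 ≤ Y) :
    UZ (SZ c₁ B₀ c r Y) (OZ B e 1) w (fun P A _ => vA P.2.2.2 A) := by
  refine UZ.lift ?_
  have u1 : UZ (SZ c₁ B₀ c r Y) (OZ B e 1) 0 (fun _ A _ => A.1) := uz_1 hB
  have u2 : UZ (SZ c₁ B₀ c r Y) (OZ B e 1) 0 (fun _ A _ => A.2.1) := uz_2 hB
  have u3 : UZ (SZ c₁ B₀ c r Y) (OZ B e 1) 0 (fun _ A _ => A.2.2) := uz_3 hB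
  have uy : UZ (SZ c₁ B₀ c r Y) (OZ B e 1) 0 (fun P _ _ => P.2.2.2) := uz_y hY
  have hB0 : 0 < 1 / B := by positivity
  have i1 : UZ (SZ c₁ B₀ c r Y) (OZ B e 1) 0 (fun P A _ => (A.1 * A.1 * (P.2.2.2 * P.2.2.2))⁻¹) := by
    refine UZ.inv (c := 1 / B * (1 / B) * (1 / Y * (1 / Y))) ((u1.mul u1).mul (uy.mul uy))
      (by positivity) fun P hP A hA τ _ => ?_
    have h6 := A1_lo hB hA
    exact mul_le_mul (mul_le_mul h6 h6 hB0.le (hB0.le.trans h6)) (y_lo hY hP.2.2).2 (by positivity)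
      (mul_self_nonneg _)
  exact (((u2.mul u2).add ((UZ.cst (-1)).mul (u3.mul u1))).mul i1).congr fun P A τ => by
    unfold vA
    rw [div_eq_mul_inv, sq, sq, sq]
    ring

theorem vA_le (hB : 1 ≤ B) (hY : 1 ≤ Y) (he : 0 < e) (heY : e * Y ^ 2 ≤ c * r / 2) {y : ℝ}
    (hy : y ∈ Icc (1 / Y) Y) (hX : 0 < X) (hA : A ∈ OZ B e X) : |vA y A| ≤ c * r / 2 := by
  have h1 := OZ_pos hB hX hA
  obtain ⟨y0, y1⟩ := y_lo hY hy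
  have hY0 : 0 < Y := by linarith
  unfold vA
  rw [abs_div, abs_of_pos (by positivity : 0 < A.1 ^ 2 * y ^ 2)]
  refine le_trans ?_ heY
  rw [div_le_iff₀ (by positivity)]
  refine hA.2.2.2.2.trans ?_
  have h2 : 1 ≤ Y ^ 2 * y ^ 2 := by
    have := mul_le_mul_of_nonneg_left y1 (by positivity : 0 ≤ Y ^ 2)
    have e1 : Y ^ 2 * (1 / Y * (1 / Y)) = 1 := by field_simp
    rw [e1] at this
    linarith
  have h3 : e * A.1 ^ 2 * 1 ≤ e * A.1 ^ 2 * (Y ^ 2 * y ^ 2) := mul_le_mul_of_nonneg_left h2 (by positivity)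
  linarith

theorem uz_t (hB : 1 ≤ B) (hY : 1 ≤ Y) (hc : 0 < c) (hr : 0 < r) (hr1 : r ≤ 1) (he : 0 < e)
    (heY : e * Y ^ 2 ≤ c * r / 2) :
    UZ (SZ c₁ B₀ c r Y) (OZ B e 1) w (fun P A _ => tA P.1 P.2.1 r P.2.2.1 P.2.2.2 A) := by
  obtain ⟨K, hK, h1, h2⟩ := UZ.ext (uz_v (c₁ := c₁) (B₀ := B₀) (c := c) (r := r) (e := e) hB hY)
  refine UZ.frm (fun (P : PZ) A => tA P.1 P.2.1 r P.2.2.1 P.2.2.2 A) (5 + K / c) (fun P hP A hA => ?_)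
    fun P hP δ A A' h0 hA hA' d1 d2 d3 => ?_
  · have hv := vA_le hB hY he heY hP.2.2 one_pos hA
    have t := ((th_lip hc hr hP.1 hP.2.1).1 _ hv).1
    have hz := hP.2.1.2.1
    have : 0 ≤ K / c := by positivity
    unfold tA
    have e1 : th P.1 P.2.1 r P.2.2.1 (vA P.2.2.2 A) =
      (th P.1 P.2.1 r P.2.2.1 (vA P.2.2.2 A) - P.2.1) + P.2.1 := by ring
    rw [e1]
    refine (abs_add_le _ _).trans ?_
    linarith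
  · have hv := vA_le hB hY he heY hP.2.2 one_pos hA
    have hv' := vA_le hB hY he heY hP.2.2 one_pos hA'
    have t := (th_lip hc hr hP.1 hP.2.1).2.2 _ _ hv hv'
    have s := h2 P hP δ A A' h0 hA hA' d1 d2 d3
    unfold tA
    refine t.trans ((div_le_div_of_nonneg_right s hc.le).trans ?_)
    have : K * δ / c = K / c * δ := by ring
    rw [this]
    exact mul_le_mul_of_nonneg_right (by linarith) h0

/-- a bounded Lipschitz function of the direction -/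
theorem uz_ft (hB : 1 ≤ B) (hY : 1 ≤ Y) (hc : 0 < c) (hr : 0 < r) (hr1 : r ≤ 1) (he : 0 < e)
    (heY : e * Y ^ 2 ≤ c * r / 2) (φ : (ℝ × ℝ → ℝ) → ℝ → ℝ) (K : ℝ) (hK : 0 ≤ K)
    (hb : ∀ h, HG c₁ B₀ h → ∀ θ, |φ h θ| ≤ K)
    (hl : ∀ h, HG c₁ B₀ h → ∀ θ θ', |φ h θ - φ h θ'| ≤ K * |θ - θ'|) :
    UZ (SZ c₁ B₀ c r Y) (OZ B e 1) w (fun P A _ => φ P.1 (tA P.1 P.2.1 r P.2.2.1 P.2.2.2 A)) := by
  obtain ⟨L, hL, h1, h2⟩ := UZ.ext (uz_t (c₁ := c₁) (B₀ := B₀) (c := c) (r := r) (e := e) hB hY hc hr hr1 he heY)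
  refine UZ.frm (fun (P : PZ) A => φ P.1 (tA P.1 P.2.1 r P.2.2.1 P.2.2.2 A)) (K * L) (fun P hP A hA => ?_)
    fun P hP δ A A' h0 hA hA' d1 d2 d3 => ?_
  · exact (hb P.1 hP.1 _).trans (le_mul_of_one_le_right hK hL)
  · refine (hl P.1 hP.1 _ _).trans ?_
    rw [mul_assoc]
    exact mul_le_mul_of_nonneg_left (h2 P hP δ A A' h0 hA hA' d1 d2 d3) hK

/-- the bounds of the parameters of a slice -/
theorem prm2 (hc : 0 < c₁) (hB₀ : 1 ≤ B₀) {h : ℝ × ℝ → ℝ} (hh : HG c₁ B₀ h) (θ : ℝ) :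
    c₁ ≤ p2 h θ ∧ |p2 h θ| ≤ B₀ ∧ |be h θ| ≤ B₀ / (3 * c₁) := by
  have h0 : |(0 : ℝ)| ≤ 1 := by simp
  have cv := hh.hom.cv θ
  have l2 : c₁ ≤ p2 h θ := cv.lo 0 h0
  have u2 : |p2 h θ| ≤ B₀ := cv.d2 0 h0
  have u3 : |p3 h θ| ≤ B₀ := cv.d3 0 h0
  have q0 : 0 < p2 h θ := hc.trans_le l2
  refine ⟨l2, u2, ?_⟩
  unfold be
  rw [abs_div, abs_of_pos (by positivity : 0 < 3 * p2 h θ)]
  exact div_le_div₀ (by linarith) u3 (by positivity) (by linarith)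

theorem uz_q (hc₁ : 0 < c₁) (hB₀ : 1 ≤ B₀) (hB : 1 ≤ B) (hY : 1 ≤ Y) (hc : 0 < c) (hr : 0 < r) (hr1 : r ≤ 1) (he : 0 < e)
    (heY : e * Y ^ 2 ≤ c * r / 2) :
    UZ (SZ c₁ B₀ c r Y) (OZ B e 1) w (fun P A _ => p2 P.1 (tA P.1 P.2.1 r P.2.2.1 P.2.2.2 A)) :=
  uz_ft hB hY hc hr hr1 he heY (fun h θ => p2 h θ) B₀ (by linarith)
    (fun h hh θ => (prm2 hc₁ hB₀ hh θ).2.1) fun h hh θ θ' => hh.p2l θ θ'

theorem uz_b (hc₁ : 0 < c₁) (hB₀ : 1 ≤ B₀) (hB : 1 ≤ B) (hY : 1 ≤ Y) (hc : 0 < c) (hr : 0 < r) (hr1 : r ≤ 1) (he : 0 < e)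
    (heY : e * Y ^ 2 ≤ c * r / 2) :
    UZ (SZ c₁ B₀ c r Y) (OZ B e 1) w (fun P A _ => be P.1 (tA P.1 P.2.1 r P.2.2.1 P.2.2.2 A)) := by
  have h0 : 0 ≤ B₀ / (3 * c₁) := by positivity
  refine uz_ft hB hY hc hr hr1 he heY (fun h θ => be h θ) (B₀ + B₀ / (3 * c₁)) (by linarith)
    (fun h hh θ => ?_) fun h hh θ θ' => ?_
  · linarith [(prm2 hc₁ hB₀ hh θ).2.2]
  · exact (hh.bel θ θ').trans (mul_le_mul_of_nonneg_right (by linarith) (abs_nonneg _))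

theorem uz_T (hc₁ : 0 < c₁) (hB₀ : 1 ≤ B₀) (hB : 1 ≤ B) (hY : 1 ≤ Y) (hc : 0 < c) (hr : 0 < r) (hr1 : r ≤ 1) (he : 0 < e)
    (heY : e * Y ^ 2 ≤ c * r / 2) :
    UZ (SZ c₁ B₀ c r Y) (OZ B e 1) w (fun P A _ => TZ P.1 P.2.1 r P.2.2.1 P.2.2.2 A) := by
  refine UZ.lift ?_
  have u1 : UZ (SZ c₁ B₀ c r Y) (OZ B e 1) 0 (fun _ A _ => A.1) := uz_1 hB
  have uy : UZ (SZ c₁ B₀ c r Y) (OZ B e 1) 0 (fun P _ _ => P.2.2.2) := uz_y hY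
  have uq : UZ (SZ c₁ B₀ c r Y) (OZ B e 1) 0
    (fun P A _ => p2 P.1 (tA P.1 P.2.1 r P.2.2.1 P.2.2.2 A)) := uz_q hc₁ hB₀ hB hY hc hr hr1 he heY
  have i1 : UZ (SZ c₁ B₀ c r Y) (OZ B e 1) 0
      (fun P A _ => (p2 P.1 (tA P.1 P.2.1 r P.2.2.1 P.2.2.2 A) * (P.2.2.2 * P.2.2.2))⁻¹) := by
    refine UZ.inv (c := c₁ * (1 / Y * (1 / Y))) (uq.mul (uy.mul uy)) (by positivity)
      fun P hP A hA τ _ => ?_
    have h6 := (prm2 hc₁ hB₀ hP.1 (tA P.1 P.2.1 r P.2.2.1 P.2.2.2 A)).1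
    exact mul_le_mul h6 (y_lo hY hP.2.2).2 (by positivity) (hc₁.le.trans h6)
  exact ((UZ.cst 2).mul (u1.mul i1)).congr fun P A τ => by
    unfold TZ
    rw [div_eq_mul_inv, sq]
    ring

theorem uz_x (hc₁ : 0 < c₁) (hB₀ : 1 ≤ B₀) (hB : 1 ≤ B) (hY : 1 ≤ Y) (hc : 0 < c) (hr : 0 < r) (hr1 : r ≤ 1) (he : 0 < e)
    (heY : e * Y ^ 2 ≤ c * r / 2) :
    UZ (SZ c₁ B₀ c r Y) (OZ B e 1) w (fun P A _ => xZ P.1 P.2.1 r P.2.2.1 P.2.2.2 A) := by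
  refine UZ.lift ?_
  have u1 : UZ (SZ c₁ B₀ c r Y) (OZ B e 1) 0 (fun _ A _ => A.1) := uz_1 hB
  have u2 : UZ (SZ c₁ B₀ c r Y) (OZ B e 1) 0 (fun _ A _ => A.2.1) := uz_2 hB
  have uy : UZ (SZ c₁ B₀ c r Y) (OZ B e 1) 0 (fun P _ _ => P.2.2.2) := uz_y hY
  have ub : UZ (SZ c₁ B₀ c r Y) (OZ B e 1) 0
    (fun P A _ => be P.1 (tA P.1 P.2.1 r P.2.2.1 P.2.2.2 A)) := uz_b hc₁ hB₀ hB hY hc hr hr1 he heY
  have i1 : UZ (SZ c₁ B₀ c r Y) (OZ B e 1) 0 (fun _ A _ => (A.1)⁻¹) :=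
    UZ.inv (c := 1 / B) u1 (by positivity) fun P hP A hA τ _ => A1_lo hB hA
  exact (((UZ.cst (-1)).mul (u2.mul i1)).add (ub.mul uy)).congr fun P A τ => by
    unfold xZ
    rw [div_eq_mul_inv]
    ring

end

/-- the algebraic part of the remainder, divided by `τ ^ 5` -/
noncomputable def Rz (a x y β κ τ : ℝ) : ℝ :=
  a * (-(x ^ 3 * (1 + x * τ)⁻¹) + β * y * (3 * x ^ 2 + 2 * x ^ 3 * τ) * (1 + x * τ)⁻¹ ^ 2 -
    (β ^ 2 - κ) * y ^ 2 * (3 * x + 3 * x ^ 2 * τ + x ^ 3 * τ ^ 2) * (1 + x * τ)⁻¹ ^ 3)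

/-- the algebraic part of the remainder in the second chart -/
noncomputable def Qz (r : ℝ) (P : PZ) (A : R3) (τ : ℝ) : ℝ :=
  Rz A.1 (xZ P.1 P.2.1 r P.2.2.1 P.2.2.2 A) P.2.2.2 (be P.1 (tA P.1 P.2.1 r P.2.2.1 P.2.2.2 A))
    (vA P.2.2.2 A) τ

theorem uz_R {c₁ B₀ B c r Y e w : ℝ} (hc₁ : 0 < c₁) (hB₀ : 1 ≤ B₀) (hB : 1 ≤ B) (hY : 1 ≤ Y) (hc : 0 < c) (hr : 0 < r)
    (hr1 : r ≤ 1) (he : 0 < e) (heY : e * Y ^ 2 ≤ c * r / 2) (hw : 0 ≤ w)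
    (hd : ∀ P ∈ SZ c₁ B₀ c r Y, ∀ A ∈ OZ B e 1, ∀ τ, |τ| ≤ w →
      1 / 2 ≤ 1 + xZ P.1 P.2.1 r P.2.2.1 P.2.2.2 A * τ) :
    UZ (SZ c₁ B₀ c r Y) (OZ B e 1) w (Qz r) := by
  have u1 : UZ (SZ c₁ B₀ c r Y) (OZ B e 1) w (fun _ A _ => A.1) := uz_1 hB
  have ut : UZ (SZ c₁ B₀ c r Y) (OZ B e 1) w (fun _ _ τ => τ) := UZ.idn hw
  have uy : UZ (SZ c₁ B₀ c r Y) (OZ B e 1) w (fun P _ _ => P.2.2.2) := uz_y hY
  have ux : UZ (SZ c₁ B₀ c r Y) (OZ B e 1) w (fun P A _ => xZ P.1 P.2.1 r P.2.2.1 P.2.2.2 A) :=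
    uz_x hc₁ hB₀ hB hY hc hr hr1 he heY
  have ub : UZ (SZ c₁ B₀ c r Y) (OZ B e 1) w
    (fun P A _ => be P.1 (tA P.1 P.2.1 r P.2.2.1 P.2.2.2 A)) := uz_b hc₁ hB₀ hB hY hc hr hr1 he heY
  have uk : UZ (SZ c₁ B₀ c r Y) (OZ B e 1) w (fun P A _ => vA P.2.2.2 A) := uz_v hB hY
  have ui : UZ (SZ c₁ B₀ c r Y) (OZ B e 1) w
      (fun P A τ => (1 + xZ P.1 P.2.1 r P.2.2.1 P.2.2.2 A * τ)⁻¹) :=
    UZ.inv (c := 1 / 2) ((UZ.cst 1).add (ux.mul ut)) (by norm_num) hd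
  have a1 := (UZ.cst (S := SZ c₁ B₀ c r Y) (M := OZ B e 1) (w := w) (-1)).mul ((ux.mul (ux.mul ux)).mul ui)
  have a2 := ((ub.mul uy).mul (((UZ.cst (S := SZ c₁ B₀ c r Y) (M := OZ B e 1) (w := w) 3).mul (ux.mul ux)).add
    ((UZ.cst 2).mul ((ux.mul (ux.mul ux)).mul ut)))).mul (ui.mul ui)
  have a3 := ((((ub.mul ub).add ((UZ.cst (-1)).mul uk)).mul (uy.mul uy)).mul
    ((((UZ.cst (S := SZ c₁ B₀ c r Y) (M := OZ B e 1) (w := w) 3).mul ux).add ((UZ.cst 3).mul ((ux.mul ux).mul ut))).add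
      ((ux.mul (ux.mul ux)).mul (ut.mul ut)))).mul (ui.mul (ui.mul ui))
  refine (u1.mul ((a1.add a2).add ((UZ.cst (-1)).mul a3))).congr fun P A τ => ?_
  unfold Qz Rz
  ring

end Pool.Agent.Helper92.AG
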