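import Pool.Agent.Helper65.AG.E2b

/-!
# AG-E2, part 3: `ez_lip`, the remainder of the phase in the second chart is Lipschitz in the coordinates
-/

open Real Set

set_option autoImplicit false

namespace Pool.Agent.Helper92.AG

open Pool.Agent.Helper60.LT (Fr Tf xf yf df vf fr sl Cv Hom)
open Pool.Agent.Helper60.QL (R3 scl)
open Pool.Agent.Helper3.AC

/-- multiples of differences of functions -/
theorem dsub {p q p' q' : ℝ → ℝ} (a : ℝ) (hp : ∀ s, HasDerivAt p (p' s) s)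
    (hq : ∀ s, HasDerivAt q (q' s) s) : deriv (fun t => a * (p t - q t)) = fun t => a * (p' t - q' t) := by
  funext t
  exact (((hp t).sub (hq t)).const_mul a).deriv

theorem Rm_sub {p q : ℝ → ℝ} (a : ℝ) (hp : ContDiff ℝ 5 p) (hq : ContDiff ℝ 5 q) :
    (∀ s, Rm (fun t => a * (p t - q t)) s = a * (Rm p s - Rm q s)) ∧
    deriv (deriv (deriv (deriv (deriv (fun t => a * (p t - q t)))))) = fun t =>
      a * (deriv (deriv (deriv (deriv (deriv p)))) t - deriv (deriv (deriv (deriv (deriv q)))) t) := by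
  obtain ⟨h0, h1, h2, h3, h4⟩ := hd36 hp
  obtain ⟨k0, k1, k2, k3, k4⟩ := hd36 hq
  have e1 := dsub a h0 k0
  have e2 := dsub a h1 k1
  have e3 := dsub a h2 k2
  have e4 := dsub a h3 k3
  have e5 := dsub a h4 k4
  constructor
  · intro s
    unfold Rm
    rw [e1, e2, e3, e4]
    ring
  · rw [e1, e2, e3, e4, e5]

/-- the remainder of the phase is Lipschitz in `(p, T, x, y)` -/
theorem rem2 {K B B₁ : ℝ} (hK : 1 ≤ K) (hB : 0 ≤ B) (hB₁ : 0 ≤ B₁) : ∃ C : ℝ, 1 ≤ C ∧ ∀ (p p' : ℝ → ℝ) (δ T T' x x' y y' : ℝ),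
    ContDiff ℝ 5 p → (∀ t, |t| ≤ 1 → |deriv (deriv (deriv (deriv (deriv p)))) t| ≤ B) →
    ContDiff ℝ 5 p' → (∀ t, |t| ≤ 1 → |deriv (deriv (deriv (deriv (deriv p)))) t -
      deriv (deriv (deriv (deriv (deriv p')))) t| ≤ B₁ * δ) → 0 < δ →
    Pd K 1 δ T T' → Pd K 1 δ x x' → Pd K 1 δ y y' →
    (∀ τ : ℝ, |τ| ≤ 1 / (2 * K) →
      |T * (1 + x * τ) * Rm p (y * τ / (1 + x * τ)) - T' * (1 + x' * τ) * Rm p' (y' * τ / (1 + x' * τ))| ≤
        C * δ * |τ| ^ 5) ∧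
    ∀ τ τ' w : ℝ, |τ| ≤ w → |τ'| ≤ w → w ≤ 1 / (2 * K) →
      |(T * (1 + x * τ) * Rm p (y * τ / (1 + x * τ)) - T' * (1 + x' * τ) * Rm p' (y' * τ / (1 + x' * τ))) -
        (T * (1 + x * τ') * Rm p (y * τ' / (1 + x * τ')) -
          T' * (1 + x' * τ') * Rm p' (y' * τ' / (1 + x' * τ')))| ≤ C * δ * w ^ 4 * |τ - τ'| := by
  obtain ⟨C1, hC1, H1⟩ := rem_lip hK hB
  obtain ⟨C2, hC2, H2⟩ := rem_lip hK hB₁
  refine ⟨C1 + C2, by linarith, ?_⟩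
  intro p p' δ T T' x x' y y' hp h5 hp' hd hδ pT px py
  obtain ⟨a1, a2⟩ := H1 p δ T T' x x' y y' hp h5 hδ.le pT px py
  obtain ⟨g, hg⟩ : ∃ g : ℝ → ℝ, g = fun t => δ⁻¹ * (p t - p' t) := ⟨_, rfl⟩
  obtain ⟨r1, r2⟩ := Rm_sub δ⁻¹ hp hp'
  rw [← hg] at r1 r2
  have gc : ContDiff ℝ 5 g := by
    rw [hg]
    exact contDiff_const.mul (hp.sub hp')
  have g5 : ∀ t, |t| ≤ 1 → |deriv (deriv (deriv (deriv (deriv g)))) t| ≤ B₁ := by
    intro t ht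
    rw [r2]
    simp only
    rw [abs_mul, abs_of_pos (inv_pos.2 hδ), inv_mul_le_iff₀ hδ]
    linarith [hd t ht]
  have q0 : 0 < K := by linarith
  have pT' : Pd K 1 1 T' 0 := ⟨pT.b', by simpa using q0.le, by
    rw [sub_zero]
    linarith [pT.b']⟩
  have px' : Pd K 1 1 x' x' := ⟨px.b', px.b', by simpa using q0.le⟩
  have py' : Pd K 1 1 y' y' := ⟨py.b', py.b', by simpa using q0.le⟩
  obtain ⟨b1, b2⟩ := H2 g 1 T' 0 x' x' y' y' gc g5 zero_le_one pT' px' py'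
  have key : ∀ s, Rm p s - Rm p' s = δ * Rm g s := by
    intro s
    rw [r1, ← mul_assoc, mul_inv_cancel₀ hδ.ne', one_mul]
  have key2 : ∀ τ, T * (1 + x * τ) * Rm p (y * τ / (1 + x * τ)) -
      T' * (1 + x' * τ) * Rm p' (y' * τ / (1 + x' * τ)) =
      (T * (1 + x * τ) * Rm p (y * τ / (1 + x * τ)) - T' * (1 + x' * τ) * Rm p (y' * τ / (1 + x' * τ))) +
      δ * (T' * (1 + x' * τ) * Rm g (y' * τ / (1 + x' * τ)) - 0 * (1 + x' * τ) * Rm g (y' * τ / (1 + x' * τ))) := by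
    intro τ
    linear_combination (T' * (1 + x' * τ)) * key (y' * τ / (1 + x' * τ))
  constructor
  · intro τ hτ
    rw [key2 τ]
    refine (abs_add_le _ _).trans ?_
    rw [abs_mul, abs_of_pos hδ]
    have s1 := a1 τ hτ
    have s2 := mul_le_mul_of_nonneg_left (b1 τ hτ) hδ.le
    refine (add_le_add s1 s2).trans (le_of_eq ?_)
    ring
  · intro τ τ' w h1 h2 h3
    rw [key2 τ, key2 τ']
    have s1 := a2 τ τ' w h1 h2 h3
    have s2 := mul_le_mul_of_nonneg_left (b2 τ τ' w h1 h2 h3) hδ.le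
    have e : ∀ a b c d : ℝ, a + δ * b - (c + δ * d) = (a - c) + δ * (b - d) := by
      intro a b c d
      ring
    rw [e]
    refine (abs_add_le _ _).trans ?_
    rw [abs_mul, abs_of_pos hδ]
    refine (add_le_add s1 s2).trans (le_of_eq ?_)
    ring

section

variable {c₁ B₀ B c r Y e X z σ y τ : ℝ} {h : ℝ × ℝ → ℝ} {A : R3}

theorem vA_scl (hX : 0 < X) : vA y (scl X A) = vA y A := by
  unfold vA scl
  simp only
  by_cases h0 : A.1 = 0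
  · rw [h0]; simp
  by_cases hy : y = 0
  · rw [hy]; simp
  field_simp

theorem tA_scl (hX : 0 < X) : tA h z r σ y (scl X A) = tA h z r σ y A := by
  unfold tA
  rw [vA_scl hX]

theorem xZ_scl (hX : 0 < X) : xZ h z r σ y (scl X A) = xZ h z r σ y A := by
  unfold xZ
  rw [tA_scl hX]
  unfold scl
  simp only
  rw [div_div_div_cancel_right₀ hX.ne']

theorem TZ_scl (hX : 0 < X) : TZ h z r σ y A = X * TZ h z r σ y (scl X A) := by
  unfold TZ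
  rw [tA_scl hX]
  unfold scl
  simp only
  field_simp

theorem ez_scl (hh : Hom c₁ B₀ h) (hX : 0 < X) : ez h z r σ y A τ = X * ez h z r σ y (scl X A) τ := by
  have e4 : hf h (fZ h z r σ y A) τ = X * hf h (fZ h z r σ y (scl X A)) τ := by
    unfold hf
    rw [← hh.hom X _ hX]
    congr 1
    unfold fZ fr
    rw [tA_scl hX, xZ_scl hX, TZ_scl hX]
    ext
    · simp only
      ring
    · simp only
      ring
  have f1 : X * (scl X A).1 = A.1 := by unfold scl; field_simp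
  have f2 : X * (scl X A).2.1 = A.2.1 := by unfold scl; field_simp
  have f3 : X * (scl X A).2.2 = A.2.2 := by unfold scl; field_simp
  unfold ez
  rw [e4, tA_scl hX, xZ_scl hX, TZ_scl hX]
  linear_combination τ ^ 2 * f1 + τ ^ 3 * f2 + τ ^ 4 * f3

theorem scl_memZ (hX : 0 < X) (h : A ∈ OZ B e X) : scl X A ∈ OZ B e 1 := by
  obtain ⟨a1, a2, a3, a4, a5⟩ := h
  refine ⟨?_, ?_, ?_, ?_, ?_⟩
  · change 1 ≤ B * (A.1 / X)
    rw [← mul_div_assoc, le_div_iff₀ hX]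
    linarith
  · change A.1 / X ≤ B * 1
    rw [div_le_iff₀ hX]
    linarith
  · change |A.2.1 / X| ≤ B * 1
    rw [abs_div, abs_of_pos hX, div_le_iff₀ hX]
    linarith
  · change |A.2.2 / X| ≤ B * 1
    rw [abs_div, abs_of_pos hX, div_le_iff₀ hX]
    linarith
  · change |(A.2.1 / X) ^ 2 - A.2.2 / X * (A.1 / X)| ≤ e * (A.1 / X) ^ 2
    have e1 : (A.2.1 / X) ^ 2 - A.2.2 / X * (A.1 / X) = (A.2.1 ^ 2 - A.2.2 * A.1) / X ^ 2 := by
      field_simp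
    rw [e1, abs_div, abs_of_pos (by positivity : 0 < X ^ 2), div_pow, ← mul_div_assoc]
    exact div_le_div_of_nonneg_right a5 (by positivity)

/-- the remainder in the second chart -/
theorem ez_eq (hc₁ : 0 < c₁) (hB₀ : 1 ≤ B₀) (hB : 1 ≤ B) (hc : 0 < c) (hr : 0 < r) (hY : 1 ≤ Y) (he : 0 < e)
    (heY : e * Y ^ 2 ≤ c * r / 2) (hh : HG c₁ B₀ h) (hg : Gd c r z σ h) (hy : y ∈ Icc (1 / Y) Y)
    (hA : A ∈ OZ B e 1) (hd : 0 < 1 + xZ h z r σ y A * τ) :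
    ez h z r σ y A τ = τ ^ 5 * Qz r (h, z, σ, y) A τ + TZ h z r σ y A * (1 + xZ h z r σ y A * τ) *
      Rm (sl h (tA h z r σ y A)) (y * τ / (1 + xZ h z r σ y A * τ)) := by
  have h1 := OZ_pos hB one_pos hA
  have hy0 := (y_lo hY hy).1
  have hv := vA_le hB hY he heY hy one_pos hA
  have ht := ((th_lip hc hr hh hg).1 _ hv).2
  obtain ⟨θ, hθ⟩ : ∃ θ, θ = tA h z r σ y A := ⟨_, rfl⟩
  obtain ⟨q1, -, -⟩ := prm2 hc₁ hB₀ hh θ
  have hq : 0 < p2 h θ := hc₁.trans_le q1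
  have hκ : ka h θ = vA y A := by
    rw [hθ]
    exact ht
  have hT : 0 < TZ h z r σ y A := by
    unfold TZ
    rw [← hθ]
    positivity
  have e1 : A.1 = TZ h z r σ y A * p2 h θ * y ^ 2 / 2 := by
    unfold TZ
    rw [← hθ]
    field_simp
  have e2 : A.2.1 = A.1 * (-xZ h z r σ y A + be h θ * y) := by
    unfold xZ
    rw [← hθ]
    field_simp
    ring
  have e3 : A.2.2 = A.1 * ((xZ h z r σ y A - be h θ * y) ^ 2 - vA y A * y ^ 2) := by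
    have s : xZ h z r σ y A - be h θ * y = -(A.2.1 / A.1) := by
      unfold xZ
      rw [← hθ]
      ring
    rw [s]
    unfold vA
    field_simp
    ring
  have r3 : deriv (deriv (deriv (sl h θ))) 0 = 3 * p2 h θ * be h θ := by
    unfold be p3
    field_simp
  have r4 : deriv (deriv (deriv (deriv (sl h θ)))) 0 = 12 * p2 h θ * (be h θ ^ 2 - vA y A) := by
    rw [← hκ]
    unfold ka p4
    field_simp
    ring
  have r2 : deriv (deriv (sl h θ)) 0 = p2 h θ := rfl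
  unfold ez fZ
  rw [hf_eq hh.hom hT hd]
  unfold Qz
  simp only
  rw [← hθ]
  have hR : sl h θ (y * τ / (1 + xZ h z r σ y A * τ)) =
      Rm (sl h θ) (y * τ / (1 + xZ h z r σ y A * τ)) +
      (sl h θ 0 + deriv (sl h θ) 0 * (y * τ * (1 + xZ h z r σ y A * τ)⁻¹) +
        p2 h θ / 2 * (y * τ * (1 + xZ h z r σ y A * τ)⁻¹) ^ 2 +
        3 * p2 h θ * be h θ / 6 * (y * τ * (1 + xZ h z r σ y A * τ)⁻¹) ^ 3 +
        12 * p2 h θ * (be h θ ^ 2 - vA y A) / 24 * (y * τ * (1 + xZ h z r σ y A * τ)⁻¹) ^ 4) := by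
    unfold Rm
    rw [r2, r3, r4, ← div_eq_mul_inv]
    ring
  have al := alg36 (T := TZ h z r σ y A) (q := p2 h θ) (x := xZ h z r σ y A) (y := y) (β := be h θ)
    (κ := vA y A) (τ := τ) (i := (1 + xZ h z r σ y A * τ)⁻¹) (p0 := sl h θ 0) (p1 := deriv (sl h θ) 0)
    (inv_mul_cancel₀ hd.ne') e1 e2 e3
  rw [hR, mul_add, add_sub_assoc, al]
  unfold Rz
  ring

end

private theorem pow5_lip65 {w τ τ' : ℝ} (h : |τ| ≤ w) (h' : |τ'| ≤ w) :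
    |τ ^ 5 - τ' ^ 5| ≤ 5 * w ^ 4 * |τ - τ'| := by
  have hw : 0 ≤ w := (abs_nonneg _).trans h
  have e : τ ^ 5 - τ' ^ 5 = (τ - τ') * (τ ^ 4 + τ ^ 3 * τ' + τ ^ 2 * τ' ^ 2 + τ * τ' ^ 3 + τ' ^ 4) := by
    ring
  have p : ∀ (i j : ℕ), |τ ^ i * τ' ^ j| ≤ w ^ i * w ^ j := by
    intro i j
    rw [abs_mul, abs_pow, abs_pow]
    exact mul_le_mul (pow_le_pow_left₀ (abs_nonneg _) h i) (pow_le_pow_left₀ (abs_nonneg _) h' j)
      (by positivity) (by positivity)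
  have q : |τ ^ 4 + τ ^ 3 * τ' + τ ^ 2 * τ' ^ 2 + τ * τ' ^ 3 + τ' ^ 4| ≤ 5 * w ^ 4 := by
    have a0 := abs_le.1 (p 4 0)
    have a1 := abs_le.1 (p 3 1)
    have a2 := abs_le.1 (p 2 2)
    have a3 := abs_le.1 (p 1 3)
    have a4 := abs_le.1 (p 0 4)
    simp only [pow_zero, mul_one, one_mul, pow_one] at a0 a1 a2 a3 a4
    rw [abs_le]
    constructor <;> nlinarith
  rw [e, abs_mul]
  have := mul_le_mul_of_nonneg_left q (abs_nonneg (τ - τ'))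
  linarith

/-- the remainder is Lipschitz in `A` with the factor `|τ|⁵` -/
theorem ez_lip {c₁ B₀ B c r Y e : ℝ} (hc₁ : 0 < c₁) (hB₀ : 1 ≤ B₀) (hB : 1 ≤ B) (hc : 0 < c) (hr : 0 < r) (hr1 : r ≤ 1) (hY : 1 ≤ Y) (he : 0 < e)
    (heY : e * Y ^ 2 ≤ c * r / 2) : ∃ C w₀ : ℝ, 1 ≤ C ∧ 0 < w₀ ∧ w₀ ≤ 1 ∧
    ∀ h : ℝ × ℝ → ℝ, HG c₁ B₀ h → ∀ z σ : ℝ, Gd c r z σ h → ∀ y ∈ Icc (1 / Y) Y, ∀ (X δ : ℝ) (A A' : R3), 0 < X → A ∈ OZ B e X → A' ∈ OZ B e X →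
    |A.1 - A'.1| ≤ δ * X → |A.2.1 - A'.2.1| ≤ δ * X → |A.2.2 - A'.2.2| ≤ δ * X →
    (∀ τ : ℝ, |τ| ≤ w₀ → |ez h z r σ y A τ - ez h z r σ y A' τ| ≤ C * δ * X * |τ| ^ 5) ∧
    ∀ τ τ' w : ℝ, |τ| ≤ w → |τ'| ≤ w → w ≤ w₀ →
      |(ez h z r σ y A τ - ez h z r σ y A' τ) - (ez h z r σ y A τ' - ez h z r σ y A' τ')| ≤ C * δ * X * w ^ 4 * |τ - τ'| := by
  obtain ⟨K1, hK1, hx, hxl⟩ := UZ.ext (uz_x hc₁ hB₀ hB hY hc hr hr1 he heY)
  obtain ⟨K2, hK2, ht, htl⟩ := UZ.ext (uz_t (c₁ := c₁) (B₀ := B₀) hB hY hc hr hr1 he heY)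
  obtain ⟨K3, hK3, hT, hTl⟩ := UZ.ext (uz_T hc₁ hB₀ hB hY hc hr hr1 he heY)
  obtain ⟨K, hK⟩ : ∃ K, K = K1 + K2 + K3 + Y := ⟨_, rfl⟩
  have hK4 : 1 ≤ K := by rw [hK]; linarith
  have hK0 : 0 < K := by linarith
  obtain ⟨w0, hw0⟩ : ∃ w0, w0 = 1 / (2 * K) := ⟨_, rfl⟩
  have hwp : 0 < w0 := by rw [hw0]; positivity
  have hwK : w0 * (2 * K) = 1 := by rw [hw0]; field_simp
  have hw1 : w0 ≤ 1 := by nlinarith
  have den : ∀ P ∈ SZ c₁ B₀ c r Y, ∀ A ∈ OZ B e 1, ∀ τ, |τ| ≤ w0 →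
      1 / 2 ≤ 1 + xZ P.1 P.2.1 r P.2.2.1 P.2.2.2 A * τ := by
    intro P hP A hA τ hτ
    have h0 := hx P hP A hA
    have h1 : |xZ P.1 P.2.1 r P.2.2.1 P.2.2.2 A * τ| ≤ 1 / 2 := by
      rw [abs_mul]
      calc |xZ P.1 P.2.1 r P.2.2.1 P.2.2.2 A| * |τ| ≤ K * w0 :=
            mul_le_mul (by linarith) hτ (abs_nonneg _) (by positivity)
        _ = 1 / 2 := by linarith
    linarith [(abs_le.1 h1).1]
  obtain ⟨L, hL, hR⟩ := uz_R (w := w0) hc₁ hB₀ hB hY hc hr hr1 he heY hwp.le den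
  obtain ⟨M, hM, hE⟩ := rem2 (K := K) (B := B₀) (B₁ := B₀ * K2) hK4 (by linarith) (by positivity)
  refine ⟨6 * L + M, w0, by linarith, hwp, hw1, ?_⟩
  intro h hh z σ hg y hy X δ A A' hX hA hA' d1 d2 d3
  have hδ : 0 ≤ δ := by
    have := (abs_nonneg _).trans d1
    exact nonneg_of_mul_nonneg_left this hX
  rcases hδ.eq_or_lt with hδ0 | hδ0
  · -- `δ = 0`
    rw [← hδ0, zero_mul] at d1 d2 d3
    have e1 : A.1 = A'.1 := by linarith [(abs_le.1 d1).1, (abs_le.1 d1).2]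
    have e2 : A.2.1 = A'.2.1 := by linarith [(abs_le.1 d2).1, (abs_le.1 d2).2]
    have e3 : A.2.2 = A'.2.2 := by linarith [(abs_le.1 d3).1, (abs_le.1 d3).2]
    have e4 : A = A' := Prod.ext e1 (Prod.ext e2 e3)
    rw [e4, ← hδ0]
    constructor
    · intro τ _
      simp
    · intro τ τ' w _ _ _
      simp
  obtain ⟨P, hP⟩ : ∃ P : PZ, P = (h, z, σ, y) := ⟨_, rfl⟩
  have hPS : P ∈ SZ c₁ B₀ c r Y := by rw [hP]; exact ⟨hh, hg, hy⟩
  have m := scl_memZ hX hA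
  have m' := scl_memZ hX hA'
  have dd : ∀ {a b : ℝ}, |a - b| ≤ δ * X → |a / X - b / X| ≤ δ := by
    intro a b h
    rw [← sub_div, abs_div, abs_of_pos hX, div_le_iff₀ hX]
    exact h
  have G := hR P hPS δ (scl X A) (scl X A') hδ m m' (dd d1) (dd d2) (dd d3)
  have gx := hxl P hPS δ (scl X A) (scl X A') hδ m m' (dd d1) (dd d2) (dd d3)
  have gt := htl P hPS δ (scl X A) (scl X A') hδ m m' (dd d1) (dd d2) (dd d3)
  have gT := hTl P hPS δ (scl X A) (scl X A') hδ m m' (dd d1) (dd d2) (dd d3)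
  have bx1 := hx P hPS _ m
  have bx2 := hx P hPS _ m'
  have bT1 := hT P hPS _ m
  have bT2 := hT P hPS _ m'
  rw [hP] at G gx gt gT bx1 bx2 bT1 bT2
  simp only at G gx gt gT bx1 bx2 bT1 bT2
  have px : Pd K 1 δ (xZ h z r σ y (scl X A)) (xZ h z r σ y (scl X A')) := by
    refine ⟨by linarith, by linarith, gx.trans ?_⟩
    rw [hK]
    nlinarith
  have py : Pd K 1 δ y y := by
    have h0 := (y_lo hY hy).1
    have h1 : |y| ≤ K * 1 := by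
      rw [abs_of_pos h0]
      linarith [hy.2]
    refine ⟨h1, h1, ?_⟩
    rw [sub_self, abs_zero]
    positivity
  have pT : Pd K 1 δ (TZ h z r σ y (scl X A)) (TZ h z r σ y (scl X A')) := by
    refine ⟨by linarith, by linarith, gT.trans ?_⟩
    rw [hK]
    nlinarith
  obtain ⟨θ, hθ⟩ : ∃ θ, θ = tA h z r σ y (scl X A) := ⟨_, rfl⟩
  obtain ⟨θ', hθ'⟩ : ∃ θ', θ' = tA h z r σ y (scl X A') := ⟨_, rfl⟩
  rw [← hθ, ← hθ'] at gt
  have d5 : ∀ t, |t| ≤ 1 → |deriv (deriv (deriv (deriv (deriv (sl h θ))))) t -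
      deriv (deriv (deriv (deriv (deriv (sl h θ'))))) t| ≤ B₀ * K2 * δ := by
    intro t ht
    have := hh.d5l θ θ' t ht
    unfold s5 at this
    refine this.trans ?_
    rw [mul_assoc]
    exact mul_le_mul_of_nonneg_left gt (by linarith)
  obtain ⟨E1, E2⟩ := hE (sl h θ) (sl h θ') δ _ _ _ _ _ _ (hh.sm θ) (hh.d5 θ) (hh.sm θ') d5 hδ0 pT px py
  obtain ⟨V, hV⟩ : ∃ V : ℝ → ℝ, V = fun τ => TZ h z r σ y (scl X A) * (1 + xZ h z r σ y (scl X A) * τ) *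
      Rm (sl h θ) (y * τ / (1 + xZ h z r σ y (scl X A) * τ)) -
      TZ h z r σ y (scl X A') * (1 + xZ h z r σ y (scl X A') * τ) *
      Rm (sl h θ') (y * τ / (1 + xZ h z r σ y (scl X A') * τ)) := ⟨_, rfl⟩
  have F1 : ∀ τ, |τ| ≤ w0 → |V τ| ≤ M * δ * |τ| ^ 5 := by
    rw [hV, hw0]
    exact E1
  have F2 : ∀ τ τ' w, |τ| ≤ w → |τ'| ≤ w → w ≤ w0 → |V τ - V τ'| ≤ M * δ * w ^ 4 * |τ - τ'| := by
    rw [hV, hw0]
    exact E2
  obtain ⟨Q, hQ⟩ : ∃ Q : ℝ → ℝ, Q = Qz r (h, z, σ, y) (scl X A) := ⟨_, rfl⟩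
  obtain ⟨Q', hQ'⟩ : ∃ Q' : ℝ → ℝ, Q' = Qz r (h, z, σ, y) (scl X A') := ⟨_, rfl⟩
  rw [← hQ, ← hQ'] at G
  have E : ∀ τ, |τ| ≤ w0 → ez h z r σ y A τ - ez h z r σ y A' τ =
      X * (τ ^ 5 * (Q τ - Q' τ) + V τ) := by
    intro τ hτ
    have k1 : 1 / 2 ≤ 1 + xZ h z r σ y (scl X A) * τ := by
      have := den P hPS _ m τ hτ
      rw [hP] at this
      exact this
    have k2 : 1 / 2 ≤ 1 + xZ h z r σ y (scl X A') * τ := by
      have := den P hPS _ m' τ hτ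
      rw [hP] at this
      exact this
    rw [ez_scl (A := A) hh.hom hX, ez_scl (A := A') hh.hom hX,
      ez_eq hc₁ hB₀ hB hc hr hY he heY hh hg hy m (by linarith),
      ez_eq hc₁ hB₀ hB hc hr hY he heY hh hg hy m' (by linarith), hV, hQ, hQ', ← hθ, ← hθ']
    ring
  have hLδ : 0 ≤ L * δ := mul_nonneg (by linarith) hδ
  constructor
  · intro τ hτ
    rw [E τ hτ, abs_mul, abs_of_pos hX]
    have e1 : |τ ^ 5 * (Q τ - Q' τ)| ≤ L * δ * |τ| ^ 5 := by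
      rw [abs_mul, abs_pow]
      have := mul_le_mul_of_nonneg_left (G.d τ hτ) (show 0 ≤ |τ| ^ 5 by positivity)
      linarith
    have e2 := (abs_add_le (τ ^ 5 * (Q τ - Q' τ)) (V τ)).trans (add_le_add e1 (F1 τ hτ))
    have e4 := mul_le_mul_of_nonneg_left e2 hX.le
    have e5 : 0 ≤ X * (|τ| ^ 5 * (L * δ)) := by positivity
    nlinarith
  · intro τ τ' w h1 h2 h3
    have hw : 0 ≤ w := (abs_nonneg _).trans h1
    have t1 := h1.trans h3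
    have t2 := h2.trans h3
    rw [E τ t1, E τ' t2]
    have e0 : X * (τ ^ 5 * (Q τ - Q' τ) + V τ) - X * (τ' ^ 5 * (Q τ' - Q' τ') + V τ') =
        X * ((τ ^ 5 - τ' ^ 5) * (Q τ - Q' τ) + τ' ^ 5 * ((Q τ - Q' τ) - (Q τ' - Q' τ')) + (V τ - V τ')) := by
      ring
    rw [e0, abs_mul, abs_of_pos hX]
    have a1 : |(τ ^ 5 - τ' ^ 5) * (Q τ - Q' τ)| ≤ 5 * w ^ 4 * |τ - τ'| * (L * δ) := by
      rw [abs_mul]
      exact mul_le_mul (pow5_lip65 h1 h2) (G.d τ t1) (abs_nonneg _) (by positivity)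
    have a2 : |τ' ^ 5 * ((Q τ - Q' τ) - (Q τ' - Q' τ'))| ≤ w ^ 4 * (L * δ * |τ - τ'|) := by
      rw [abs_mul, abs_pow]
      refine mul_le_mul ?_ (G.m τ τ' t1 t2) (abs_nonneg _) (by positivity)
      calc |τ'| ^ 5 = |τ'| ^ 4 * |τ'| := by ring
        _ ≤ w ^ 4 * 1 := mul_le_mul (pow_le_pow_left₀ (abs_nonneg _) h2 4)
            (t2.trans hw1) (abs_nonneg _) (by positivity)
        _ = w ^ 4 := mul_one _
    have a3 := (abs_add_le _ _).trans (add_le_add ((abs_add_le ((τ ^ 5 - τ' ^ 5) * (Q τ - Q' τ))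
      (τ' ^ 5 * ((Q τ - Q' τ) - (Q τ' - Q' τ')))).trans
      (add_le_add a1 a2)) (F2 τ τ' w h1 h2 h3))
    have a4 := mul_le_mul_of_nonneg_left a3 hX.le
    refine a4.trans (le_of_eq ?_)
    ring

end Pool.Agent.Helper92.AG
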