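import Pool.Agent.Helper65.AG.LP0
import Pool.Agent.Helper30.AG.BaseExp
import Pool.Agent.Helper38.AG.StepLyFin
import Pool.Agent.Helper6.AG.Orb

/-! # Project AG, block LP0 without hypotheses -/

set_option autoImplicit false
open MeasureTheory Real Set Filter Topology
open scoped ENNReal

namespace Pool.Agent.Helper65.AG

open Pool.Agent.Helper18.UC (nn LL sqo rep toT)
open Pool.Agent.Helper46.QP (TT Td)
open Pool.Agent.Helper82.AN (Ik Ow lawL wt bas eta Hw sq SepR)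
open Pool.Agent.Helper95.AF (st po mt pM shb tst Fa gA nv ip bad Den rr un frc DC Ho)
open Pool.Agent.Helper95.AG

variable {d : ℕ}

/-- **BE** without hypotheses -/
theorem base_exp {ε : ℝ} (hε : 0 < ε) (hε1 : ε ≤ 1 / 2) : BaseExp ε :=
  Pool.Agent.Helper30.AG.base_exp_of hε hε1 (Pool.Agent.Helper6.AG.step_orb_of (Pool.Agent.Helper38.AG.step_ly hε hε1))

/-- **LP0'**: base level, one parameter -/
theorem lev_prob0 {ε h : ℝ} (hε : 0 < ε) (hε1 : ε ≤ 1 / 2) (hh : 0 < h) (hh1 : h ≤ 1 / 200)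
    {γ τ x : ℝ} (hd : 0 < d) (hγ : 0 < γ) (h1 : 1 / d ≤ τ) (h2 : τ * γ < x) (hx : x < 1) (G : ℝ) (hG : 1 ≤ G) :
    ∃ K : ℝ, ∀ n : ℕ, K ≤ n → ∀ D : ℝ, 0 < D → ∃ L₀ : ℝ, 1 ≤ L₀ ∧ ∀ L : ℝ, L₀ ≤ L →
      ∀ (k : ℕ) (e : Fin k → Td d → ℝ) (U : Fin (k + 1) → ℝ) (a : ℝ) (α : Td d) (y : ℝ), (∀ i, Continuous (e i)) →
        Real.exp L ≤ |a| → |a| ≤ Real.exp (L + 1) → |a| ^ (2 * ε - 1) ≤ |U 0| → DC D τ α → -(et h 0 / 2 * n * L) ≤ y →
        lawL d {w | et h 0 ≤ volume.real {θ : Td d | sq α (frc γ e U w) θ ∈ Ev0 h (ε * h / 256) a L n y}} ≤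
          ENNReal.ofReal (Real.exp (-(G * n * L))) :=
  lev_prob0_of (base_exp hε hε1) hε hε1 hh hh1 hd hγ h1 h2 hx G hG

end Pool.Agent.Helper65.AG
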